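import Pool.Agent.H.MP_3aed06_nt.B

set_option autoImplicit false

namespace Pool.Agent.H.MP_923662_nt
open Finset Pool.Agent.H.MP_3aed06_nt

lemma pm {P : Finset ℕ} (hP : ∀ p ∈ P, p.Prime) {φ : ℕ → ℕ → ℝ} {m : ℕ → ℝ}
    (hper : ∀ p ∈ P, Function.Periodic (φ p) p) (h1 : ∀ p ∈ P, ∀ n, |φ p n| ≤ 1)
    (hm : ∀ p ∈ P, ∑ a ∈ range p, φ p a = p * m p) {σ : ℝ} (hσ : |σ| ≤ 1) (x H : ℕ) :
    ∑ n ∈ range H, σ * ∏ p ∈ P, φ p (x + n) ≤ H * (σ * ∏ p ∈ P, m p) + 2 * ∏ p ∈ P, (p : ℝ) := by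
  have M0 : 0 < ∏ p ∈ P, p := prod_pos fun p hp => (hP p hp).pos
  have := per_sum (fun n => σ * ∏ p ∈ P, φ p n) _ M0
    (fun n => by simp only [per_prod P φ hper n]) (fun n => by
      rw [abs_mul, abs_prod]
      exact mul_le_one₀ hσ (by positivity) (prod_le_one (fun _ _ => abs_nonneg _) fun p hp => h1 p hp n))
    x H
  rw [← mul_sum (range (∏ p ∈ P, p)), prod_mean P hP φ hper, prod_congr rfl hm, prod_mul_distrib,
    Nat.cast_prod] at this
  have M1 : (0 : ℝ) < ∏ p ∈ P, (p : ℝ) := by rw [← Nat.cast_prod]; exact_mod_cast M0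
  refine this.trans_eq ?_
  field_simp

/-- truncated inclusion-exclusion sum -/
noncomputable def TT (k : ℕ) (P : Finset ℕ) (ψ : ℕ → ℝ) : ℝ :=
  ∑ S ∈ P.powerset, if S.card ≤ k then (-1) ^ S.card * ∏ p ∈ S, ψ p else 0

lemma bonf {P : Finset ℕ} {ψ : ℕ → ℝ} (h : ∀ p ∈ P, 0 ≤ ψ p ∧ ψ p ≤ 1) (k : ℕ) :
    0 ≤ (-1) ^ k * (TT k P ψ - ∏ p ∈ P, (1 - ψ p)) := by
  induction P using Finset.induction_on generalizing k with
  | empty => simp [TT]
  | insert a P ha ih =>
    have h' := fun p hp => h p (mem_insert_of_mem hp)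
    have a0 := (h a (mem_insert_self _ _)).1
    have e : TT k (insert a P) ψ = TT k P ψ + ∑ S ∈ P.powerset,
        if S.card + 1 ≤ k then - ψ a * ((-1) ^ S.card * ∏ p ∈ S, ψ p) else 0 := by
      rw [TT, sum_powerset_insert ha, TT]
      congr 1
      refine sum_congr rfl fun S hS => ?_
      have : a ∉ S := fun e => ha (mem_powerset.mp hS e)
      rw [card_insert_of_notMem this, prod_insert this]
      split_ifs <;> ring
    rw [e, prod_insert ha]
    cases k with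
    | zero =>
      have := ih h' 0
      have := mul_nonneg a0 (prod_nonneg (s := P) (f := fun p => 1 - ψ p) fun p hp => by
        linarith [(h' p hp).2])
      simp only [pow_zero, one_mul, nonpos_iff_eq_zero, Nat.add_eq_zero_iff, one_ne_zero, and_false,
        if_false, sum_const_zero] at *
      linarith
    | succ k =>
      have e2 : (∑ S ∈ P.powerset, if S.card + 1 ≤ k + 1 then
          - ψ a * ((-1) ^ S.card * ∏ p ∈ S, ψ p) else 0) = - ψ a * TT k P ψ := by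
        simp only [TT, mul_sum, Nat.add_le_add_iff_right, mul_ite, mul_zero]
      have := ih h' (k + 1)
      have := mul_nonneg a0 (ih h' k)
      rw [e2]
      rw [pow_succ] at *
      linarith

lemma psum {P : Finset ℕ} {g : ℕ → ℝ} (h : ∀ p ∈ P, 0 ≤ g p) :
    ∑ S ∈ P.powerset, ∏ p ∈ S, g p ≤ Real.exp (∑ p ∈ P, g p) := by
  rw [← prod_one_add, Real.exp_sum]
  exact prod_le_prod (fun p hp => by linarith [h p hp]) fun p _ => by
    linarith [Real.add_one_le_exp (g p)]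

/-- reciprocal mass of a set -/
noncomputable def ms (P : Finset ℕ) : ℝ := ∑ p ∈ P, 1 / (p : ℝ)

lemma log_le (w : ℕ) : Real.log (w + 1) ≤ 2 * Real.exp (ms (Pw w)) := by
  have h1 := log_add_one_le_harmonic w
  rw [harmonic_eq_sum_Icc] at h1
  push_cast at h1
  have h2 := H_le w
  have h3 : ∑ A ∈ Qs (Pw w) w, r A ≤ Real.exp (ms (Pw w)) :=
    (sum_le_sum_of_subset_of_nonneg (filter_subset _ _) fun _ _ _ => r_nonneg _).trans
      (psum fun _ _ => by positivity)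
  simp only [one_div] at h2
  have : Ioc 0 w = Icc 1 w := rfl
  rw [this] at h2
  linarith

lemma ex_y (j : ℕ) : ∃ y, (j : ℝ) ≤ ms (Pw y) := by
  refine ⟨⌈Real.exp (2 * Real.exp j)⌉₊, Real.exp_le_exp.mp ?_⟩
  have h1 := log_le ⌈Real.exp (2 * Real.exp j)⌉₊
  have h2 : 2 * Real.exp j ≤ Real.log (⌈Real.exp (2 * Real.exp j)⌉₊ + 1) := by
    rw [Real.le_log_iff_exp_le (by positivity)]
    linarith [Nat.le_ceil (Real.exp (2 * Real.exp j))]
  linarith

open Classical in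
/-- checkpoints -/
noncomputable def yy (j : ℕ) : ℕ := Nat.find (ex_y j)

/-- primes up to a checkpoint -/
noncomputable def PP (j : ℕ) : Finset ℕ := Pw (yy j)

/-- length from which the sieve at a checkpoint works -/
noncomputable def LL (j : ℕ) : ℕ := ((yy j + 1) ^ 2) ^ (20 * j)

lemma mem_PP {j p : ℕ} : p ∈ PP j ↔ p.Prime ∧ p ≤ yy j := by
  simp [PP, Pw, Nat.lt_succ_iff, and_comm]

lemma ms_ge (j : ℕ) : (j : ℝ) ≤ ms (PP j) := by classical exact Nat.find_spec (ex_y j)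

lemma yy_zero : yy 0 = 0 := by
  classical exact (Nat.find_eq_zero _).mpr (by simp [ms, Pw, Finset.filter_singleton, Nat.not_prime_zero])

lemma yy_mono : Monotone yy := fun i j h => by
  classical exact Nat.find_mono fun y hy => le_trans (by exact_mod_cast h) hy

lemma PP_mono {i j : ℕ} (h : i ≤ j) : PP i ⊆ PP j := fun p hp =>
  mem_PP.mpr ⟨(mem_PP.mp hp).1, (mem_PP.mp hp).2.trans (yy_mono h)⟩

lemma yy_facts (j : ℕ) : ms (PP j) ≤ j + 1 / 2 ∧ Real.log (yy j) ≤ 2 * Real.exp j ∧ j ≤ yy j := by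
  classical
  have h0 := ms_ge j
  have h1 : ms (PP j) ≤ yy j := by
    refine (sum_le_card_nsmul _ _ 1 fun p hp => ?_).trans ?_
    · exact (div_le_one (by exact_mod_cast (mem_PP.mp hp).1.pos)).mpr
        (by exact_mod_cast (mem_PP.mp hp).1.pos)
    · have : (PP j).card ≤ (Ioc 0 (yy j)).card := card_le_card fun p hp =>
        mem_Ioc.mpr ⟨(mem_PP.mp hp).1.pos, (mem_PP.mp hp).2⟩
      simpa using this
  refine ⟨?_, ?_, by exact_mod_cast h0.trans h1⟩ <;> rcases Nat.eq_zero_or_pos (yy j) with e | e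
  · rw [e, Nat.cast_zero] at h1; linarith [(j.cast_nonneg : (0 : ℝ) ≤ j)]
  · obtain ⟨w, hw⟩ : ∃ w, yy j = w + 1 := ⟨yy j - 1, by omega⟩
    have h2 := not_le.mp (Nat.find_min (ex_y j) (show w < yy j by omega))
    rw [PP, hw, ms, Pw, range_add_one, filter_insert]
    split_ifs with h
    · rw [sum_insert (by simp)]
      have := one_div_le_one_div_of_le two_pos (show (2 : ℝ) ≤ (w + 1 : ℕ) by exact_mod_cast h.two_le)
      unfold ms Pw at h2
      linarith
    · unfold ms Pw at h2; linarith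
  · rw [e]; simp; positivity
  · obtain ⟨w, hw⟩ : ∃ w, yy j = w + 1 := ⟨yy j - 1, by omega⟩
    have h2 := not_le.mp (Nat.find_min (ex_y j) (show w < yy j by omega))
    have := log_le w
    rw [hw]; push_cast
    linarith [Real.exp_le_exp.mpr h2.le]

lemma ms_mono {P Q : Finset ℕ} (h : P ⊆ Q) : ms P ≤ ms Q :=
  sum_le_sum_of_subset_of_nonneg h fun _ _ _ => by positivity

lemma err {P : Finset ℕ} {j : ℕ} (hP : P ⊆ PP j) (k : ℕ) :
    (∑ S ∈ P.powerset, if S.card ≤ k then ∏ p ∈ S, (p : ℝ) else 0) ≤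
      3 * (((yy j : ℝ) + 1) ^ 2) ^ k := by
  obtain ⟨B, hB⟩ : ∃ B, B = ((yy j : ℝ) + 1) ^ 2 := ⟨_, rfl⟩
  have y0 : (0 : ℝ) ≤ yy j := by positivity
  have B1 : 1 ≤ B := by rw [hB]; nlinarith
  have h1 : ∑ p ∈ P, (p : ℝ) / B ≤ 1 := by
    rw [← sum_div, div_le_one (by linarith)]
    refine (sum_le_card_nsmul _ _ (yy j : ℝ) fun p hp => by
      exact_mod_cast (mem_PP.mp (hP hp)).2).trans ?_
    have : (P.card : ℝ) ≤ (yy j + 1 : ℕ) := by
      exact_mod_cast (card_le_card (hP.trans (filter_subset _ _))).trans_eq (card_range _)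
    push_cast at this
    rw [nsmul_eq_mul, hB]; nlinarith
  rw [← hB]
  calc _ ≤ ∑ S ∈ P.powerset, B ^ k * ∏ p ∈ S, (p : ℝ) / B := sum_le_sum fun S _ => by
        split_ifs with h
        · rw [prod_div_distrib, prod_const, mul_div_assoc', le_div_iff₀ (by positivity), mul_comm]
          gcongr
        · positivity
    _ ≤ B ^ k * Real.exp 1 := by
        rw [← mul_sum]
        gcongr
        exact (psum fun _ _ => by positivity).trans (Real.exp_le_exp.mpr h1)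
    _ ≤ _ := by rw [mul_comm]; gcongr; linarith [Real.exp_one_lt_d9]

lemma brun {P : Finset ℕ} {j : ℕ} (hP : P ⊆ PP j) {ψ : ℕ → ℕ → ℝ} {m : ℕ → ℝ}
    (hper : ∀ p ∈ P, Function.Periodic (ψ p) p) (h1 : ∀ p ∈ P, ∀ n, 0 ≤ ψ p n ∧ ψ p n ≤ 1)
    (hm : ∀ p ∈ P, ∑ a ∈ range p, ψ p a = p * m p) (hm' : ∀ p ∈ P, 0 ≤ m p ∧ m p ≤ 2 / p)
    {H : ℕ} (hH : LL j ≤ H) (x : ℕ) :
    ∑ n ∈ range H, ∏ p ∈ P, (1 - ψ p (x + n)) ≤ 3 * H * Real.exp (-∑ p ∈ P, m p) := by
  rcases Nat.eq_zero_or_pos j with rfl | j0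
  · have : P = ∅ := eq_empty_of_forall_notMem fun p hp => by
      have := mem_PP.mp (hP hp); rw [yy_zero] at this; linarith [this.1.pos]
    simp [this]; linarith [(H.cast_nonneg : (0 : ℝ) ≤ H)]
  have j1 : (1 : ℝ) ≤ j := by exact_mod_cast j0
  have pr : ∀ p ∈ P, p.Prime := fun p hp => (mem_PP.mp (hP hp)).1
  have m1 : ∀ p ∈ P, 0 ≤ m p ∧ m p ≤ 1 := fun p hp => ⟨(hm' p hp).1, (hm' p hp).2.trans
    ((div_le_one (by exact_mod_cast (pr p hp).pos)).mpr (by exact_mod_cast (pr p hp).two_le))⟩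
  have l1 : ∑ p ∈ P, m p ≤ 2 * j + 1 := by
    have : ∑ p ∈ P, m p ≤ 2 * ms P := by
      rw [ms, mul_sum]; exact sum_le_sum fun p hp => by rw [mul_one_div]; exact (hm' p hp).2
    linarith [ms_mono hP, (yy_facts j).1]
  have l0 : 0 ≤ ∑ p ∈ P, m p := sum_nonneg fun p hp => (hm' p hp).1
  have ev : (-1 : ℝ) ^ (12 * j) = 1 := Even.neg_one_pow ⟨6 * j, by ring⟩
  have a1 : ∏ p ∈ P, (1 - m p) ≤ Real.exp (-∑ p ∈ P, m p) := by
    rw [← sum_neg_distrib, Real.exp_sum]
    exact prod_le_prod (fun p hp => by linarith [(m1 p hp).2]) fun p _ => by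
      linarith [Real.add_one_le_exp (-m p)]
  have a2 : TT (12 * j) P m ≤ TT (12 * j + 1) P m + Real.exp (-(12 * j + 1)) *
      ∑ S ∈ P.powerset, ∏ p ∈ S, Real.exp 1 * m p := by
    rw [TT, TT, mul_sum, ← sum_add_distrib]
    refine sum_le_sum fun S hS => ?_
    have n : 0 ≤ ∏ p ∈ S, m p := prod_nonneg fun p hp => (m1 p (mem_powerset.mp hS hp)).1
    rw [prod_mul_distrib, prod_const, ← mul_assoc, ← Real.exp_nat_mul, ← Real.exp_add]
    by_cases e : S.card = 12 * j + 1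
    · rw [if_neg (by omega), if_pos e.le, e, pow_succ, ev]
      simp
    · simp only [show S.card ≤ 12 * j + 1 ↔ S.card ≤ 12 * j by omega]
      exact le_add_of_nonneg_right (by positivity)
  have a3 := bonf m1 (12 * j + 1)
  rw [pow_succ, ev] at a3
  have a4 : Real.exp (-(12 * j + 1)) * ∑ S ∈ P.powerset, ∏ p ∈ S, Real.exp 1 * m p ≤
      Real.exp (-∑ p ∈ P, m p) := by
    refine (mul_le_mul_of_nonneg_left (psum fun p hp => mul_nonneg (Real.exp_pos _).le (m1 p hp).1)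
      (Real.exp_pos _).le).trans ?_
    rw [← Real.exp_add, Real.exp_le_exp, ← mul_sum]
    nlinarith [Real.exp_one_lt_d9]
  have a5 : 2 * (3 * (((yy j : ℝ) + 1) ^ 2) ^ (12 * j)) ≤ H * Real.exp (-∑ p ∈ P, m p) := by
    have b1 : ((((yy j : ℝ) + 1) ^ 2) ^ (12 * j)) * (((yy j : ℝ) + 1) ^ 2) ^ (8 * j) ≤ H := by
      rw [← pow_add, show 12 * j + 8 * j = 20 * j by ring]; exact_mod_cast hH
    have b2 : Real.exp 1 ≤ ((yy j : ℝ) + 1) ^ 2 := by
      have : (1 : ℝ) ≤ yy j := by exact_mod_cast j0.trans_le (yy_facts j).2.2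
      nlinarith [Real.exp_one_lt_d9]
    have b3 := pow_le_pow_left₀ (Real.exp_pos 1).le b2 (8 * j)
    rw [← Real.exp_nat_mul] at b3
    have b4 : 6 * Real.exp (∑ p ∈ P, m p) ≤ Real.exp ((8 * j : ℕ) * 1) := by
      have : (6 : ℝ) ≤ Real.exp 5 := by linarith [Real.add_one_le_exp 5]
      refine (mul_le_mul_of_nonneg_right this (Real.exp_pos _).le).trans ?_
      rw [← Real.exp_add, Real.exp_le_exp]; push_cast; linarith
    rw [Real.exp_neg, ← div_eq_mul_inv, le_div_iff₀ (Real.exp_pos _)]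
    nlinarith [mul_le_mul_of_nonneg_left (b4.trans b3)
      (show 0 ≤ (((yy j : ℝ) + 1) ^ 2) ^ (12 * j) by positivity)]
  calc _ ≤ ∑ n ∈ range H, TT (12 * j) P fun p => ψ p (x + n) := sum_le_sum fun n _ => by
        have := bonf (fun p hp => h1 p hp (x + n)) (12 * j)
        rw [ev] at this; linarith
    _ ≤ ∑ S ∈ P.powerset, (H * (if S.card ≤ 12 * j then (-1) ^ S.card * ∏ p ∈ S, m p else 0) +
          2 * if S.card ≤ 12 * j then ∏ p ∈ S, (p : ℝ) else 0) := by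
        unfold TT
        rw [sum_comm]
        refine sum_le_sum fun S hS => ?_
        have s := mem_powerset.mp hS
        split_ifs
        · exact pm (fun p hp => pr p (s hp)) (fun p hp => hper p (s hp)) (fun p hp n =>
            abs_le.mpr ⟨by linarith [h1 p (s hp) n], (h1 p (s hp) n).2⟩) (fun p hp => hm p (s hp))
            (by simp) x H
        · simp
    _ ≤ _ := by
        rw [sum_add_distrib, ← mul_sum, ← mul_sum]
        have := err hP (12 * j)
        have : TT (12 * j) P m ≤ 2 * Real.exp (-∑ p ∈ P, m p) := by linarith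
        have := mul_le_mul_of_nonneg_left this (H.cast_nonneg : (0 : ℝ) ≤ H)
        unfold TT at this
        linarith

/-- multiplicative weight -/
noncomputable def wt (P : Finset ℕ) (c : ℕ → ℝ) (n : ℕ) : ℝ := ∏ p ∈ P, if p ∣ n then c p else 1

lemma one_class {p : ℕ} (hp : 0 < p) (x : ℕ) (c : ℝ) :
    ∑ a ∈ range p, (if p ∣ x + a then c else 0) = c := by
  rw [per_shift (fun a => if p ∣ a then c else 0) p (fun a => by simp) x]
  obtain ⟨n, rfl⟩ : ∃ n, p = n + 1 := ⟨p - 1, by omega⟩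
  rw [sum_range_succ', sum_eq_zero fun a ha =>
    if_neg (Nat.not_dvd_of_pos_of_lt (by omega) (by simpa using ha))]
  simp

lemma brun2 {P : Finset ℕ} {j : ℕ} (hP : P ⊆ PP j) {g g' : ℕ → ℝ} {r : ℕ}
    (hg : ∀ p ∈ P, 0 ≤ g p ∧ g p ≤ 1 ∧ 0 ≤ g' p ∧ g' p ≤ 1 ∧ (p ∣ r → g p = 1))
    {H : ℕ} (hH : LL j ≤ H) :
    ∑ n ∈ range H, wt P g n * wt P g' (r + n) ≤
      3 * H * Real.exp (-∑ p ∈ P, (2 - g p - g' p) / p) := by
  have p0 : ∀ p ∈ P, 0 < p := fun p hp => (mem_PP.mp (hP hp)).1.pos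
  have key : ∀ p ∈ P, ∀ n, (if p ∣ n then g p else 1) * (if p ∣ r + n then g' p else 1) =
      1 - ((if p ∣ 0 + n then 1 - g p else 0) + if p ∣ r + n then 1 - g' p else 0) := by
    intro p hp n
    rw [zero_add]
    split_ifs with h1 h2 h2
    · rw [(hg p hp).2.2.2.2 ((Nat.dvd_add_left h1).mp h2)]; ring
    all_goals ring
  refine le_trans (le_of_eq ?_) (brun hP (ψ := fun p n => (if p ∣ 0 + n then 1 - g p else 0) +
    if p ∣ r + n then 1 - g' p else 0) (fun p _ n => by simp [← add_assoc]) (fun p hp n => ?_)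
    (fun p hp => ?_) (fun p hp => ?_) hH 0)
  · refine sum_congr rfl fun n _ => ?_
    rw [wt, wt, ← prod_mul_distrib]
    exact prod_congr rfl fun p hp => by rw [key p hp, zero_add, zero_add]
  · obtain ⟨a1, a2, a3, a4, -⟩ := hg p hp
    have := key p hp n
    have : 0 ≤ (if p ∣ n then g p else 1) * (if p ∣ r + n then g' p else 1) := by positivity
    exact ⟨add_nonneg (by split_ifs <;> linarith) (by split_ifs <;> linarith), by linarith⟩
  · have : (p : ℝ) ≠ 0 := by exact_mod_cast (p0 p hp).ne'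
    rw [sum_add_distrib, one_class (p0 p hp), one_class (p0 p hp)]
    field_simp; ring
  · obtain ⟨a1, a2, a3, a4, -⟩ := hg p hp
    exact ⟨div_nonneg (by linarith) p.cast_nonneg,
      div_le_div_of_nonneg_right (by linarith) p.cast_nonneg⟩

lemma brun1 {P : Finset ℕ} {j : ℕ} (hP : P ⊆ PP j) {g : ℕ → ℝ}
    (hg : ∀ p ∈ P, 0 ≤ g p ∧ g p ≤ 1) {H : ℕ} (hH : LL j ≤ H) (x : ℕ) :
    ∑ n ∈ range H, wt P g (x + n) ≤ 3 * H * Real.exp (-∑ p ∈ P, (1 - g p) / p) := by
  have := brun2 hP (g := fun _ => 1) (g' := g) (r := x)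
    (fun p hp => ⟨zero_le_one, le_rfl, (hg p hp).1, (hg p hp).2, fun _ => rfl⟩) hH
  simpa [wt, show (2 : ℝ) - 1 = 1 by norm_num] using this

end Pool.Agent.H.MP_923662_nt
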