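import Pool.Agent.H.MP_923662_nt.A

set_option autoImplicit false

namespace Pool.Agent.H.MP_923662_nt
open Finset Pool.Agent.H.MP_3aed06_nt

lemma decay : ∃ f : ℕ → ℝ, Summable f ∧ (∀ n, 0 ≤ f n) ∧
    ∀ n j : ℕ, 2 ^ n < LL (j + 1) → Real.exp (-(1.01 * j)) ≤ f n := by
  refine ⟨fun n => (150000 : ℝ) ^ (1.005 : ℝ) * (((n + 1 : ℕ) : ℝ) ^ (1.005 : ℝ))⁻¹,
    ((summable_nat_add_iff 1).mpr (Real.summable_nat_rpow_inv.mpr (by norm_num))).mul_left _,
    fun n => by positivity, fun n j h => ?_⟩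
  obtain ⟨-, y1, y2⟩ := yy_facts (j + 1)
  have y3 : (1 : ℝ) ≤ yy (j + 1) := by exact_mod_cast le_trans (by omega) y2
  have h1 : Real.log (2 ^ n) ≤ Real.log (((yy (j + 1) + 1) ^ 2) ^ (20 * (j + 1))) :=
    Real.log_le_log (by positivity) (by exact_mod_cast h.le)
  have h2 : Real.log (yy (j + 1) + 1) ≤ Real.log 2 + Real.log (yy (j + 1)) := by
    rw [← Real.log_mul (by norm_num) (by linarith)]
    exact Real.log_le_log (by linarith) (by linarith)
  rw [Real.log_pow, Real.log_pow, Real.log_pow] at h1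
  push_cast at h1 y1
  rw [Real.exp_add] at y1
  clear h y2
  have j0 : (0 : ℝ) ≤ j := j.cast_nonneg
  have n0 : (0 : ℝ) ≤ n := n.cast_nonneg
  have e1 := Real.one_le_exp j0
  have e2 := Real.add_one_le_exp (0.004 * j)
  have h3 : Real.log (yy (j + 1) + 1) ≤ 7 * Real.exp j := by
    linarith [mul_le_mul_of_nonneg_left Real.exp_one_lt_d9.le (Real.exp_pos j).le,
      Real.log_two_lt_d9]
  have h4 : (n : ℝ) + 1 ≤ 600 * ((j + 1) * Real.exp j) := by
    have a1 := mul_le_mul_of_nonneg_left h3 (show (0 : ℝ) ≤ j + 1 by linarith)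
    have a2 := mul_le_mul_of_nonneg_left Real.log_two_gt_d9.le n0
    have a3 : 1 ≤ ((j : ℝ) + 1) * Real.exp j := one_le_mul_of_one_le_of_one_le (by linarith) e1
    linarith
  have h5 : ((n + 1 : ℕ) : ℝ) ≤ 150000 * Real.exp (1.004 * j) := by
    rw [show 1.004 * (j : ℝ) = 0.004 * j + j by ring, Real.exp_add]
    push_cast
    have := mul_le_mul_of_nonneg_right (show (j : ℝ) + 1 ≤ 250 * Real.exp (0.004 * j) by linarith)
      (Real.exp_pos j).le
    linarith
  have h6 := Real.rpow_le_rpow (by positivity) h5 (show (0 : ℝ) ≤ 1.005 by norm_num)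
  rw [Real.mul_rpow (by norm_num) (by positivity), ← Real.exp_mul] at h6
  dsimp only
  rw [← div_eq_mul_inv, le_div_iff₀ (by positivity), Real.exp_neg, inv_mul_le_iff₀ (Real.exp_pos _),
    mul_comm (Real.exp _)]
  exact h6.trans (mul_le_mul_of_nonneg_left (Real.exp_le_exp.mpr (by linarith)) (by positivity))

lemma wt_nonneg {P : Finset ℕ} {c : ℕ → ℝ} (h : ∀ p ∈ P, 0 ≤ c p) (n : ℕ) : 0 ≤ wt P c n :=
  prod_nonneg fun p hp => by split_ifs; exacts [h p hp, zero_le_one]

lemma wt_mul (P : Finset ℕ) (c c' : ℕ → ℝ) (n : ℕ) :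
    wt P c n * wt P c' n = wt P (fun p => c p * c' p) n := by
  rw [wt, wt, wt, ← prod_mul_distrib]
  exact prod_congr rfl fun p _ => by split_ifs <;> simp

lemma wt_exp (P : Finset ℕ) (u : ℕ → ℝ) (n : ℕ) :
    wt P (fun p => Real.exp (u p)) n = Real.exp (∑ p ∈ P, if p ∣ n then u p else 0) := by
  rw [Real.exp_sum]
  exact prod_congr rfl fun p _ => by split_ifs <;> simp

lemma absorb {p : ℕ} (hp : 3 ≤ p) {c k : ℝ} (c0 : 0 ≤ c) (c1 : c ≤ 1) (k0 : 0 ≤ k) (k3 : k ≤ 3) :
    (1 - c) / p ≤ (1 - c * Real.exp (k / p)) / p + 6 * (1 / (p : ℝ) ^ 2) := by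
  have p3 : (3 : ℝ) ≤ p := by exact_mod_cast hp
  have h1 : k / p ≤ 3 / p := by gcongr
  have h2 : 0 ≤ k / p := by positivity
  have h3 := Real.abs_exp_sub_one_le (x := k / p) (by
    rw [abs_of_nonneg h2, div_le_one (by linarith)]; linarith)
  rw [abs_of_nonneg h2, abs_le] at h3
  have h4 : c * (Real.exp (k / p) - 1) ≤ 6 / p := by
    have := Real.one_le_exp h2
    have : 6 / (p : ℝ) = 2 * (3 / p) := by ring
    nlinarith
  rw [show 6 * (1 / (p : ℝ) ^ 2) = 6 / p / p by field_simp, ← add_div]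
  gcongr; linarith

lemma edge {Q : Finset ℕ} {c c' : ℕ → ℝ} (hc : ∀ p ∈ Q, p.Prime ∧ 3 ≤ p ∧ 0 ≤ c p ∧
    c p * Real.exp (3 / p) ≤ 1 ∧ 0 ≤ c' p ∧ c' p ≤ 1) {i j R D : ℕ} (hR : LL j ≤ R) (hD : LL i ≤ D) :
    ∑ d ∈ range D, ∑ r ∈ range (2 * R), ∑ s ∈ range (4 * R),
      wt Q c ((1 + d) * r * (r + s)) * wt Q c' ((1 + d) * s * (r + s)) ≤
    216 * (D * R ^ 2) * Real.exp (24 - ∑ p ∈ Q ∩ PP i, (1 - c p * c' p) / p -
      ∑ p ∈ Q ∩ PP j, (3 - c p - c' p - c p * c' p) / p) := by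
  have ce : ∀ p ∈ Q, ∀ k : ℝ, k ≤ 3 → c p * Real.exp (k / p) ≤ 1 := fun p hp k hk =>
    le_trans (mul_le_mul_of_nonneg_left (Real.exp_le_exp.mpr (by gcongr)) (hc p hp).2.2.1)
      (hc p hp).2.2.2.1
  have c1 : ∀ p ∈ Q, c p ≤ 1 := fun p hp => by simpa using ce p hp 0 (by norm_num)
  have q1 : ∀ {k p}, p ∈ Q ∩ PP k → p ∈ Q := fun h => (mem_inter.mp h).1
  have sq : ∀ k, ∑ p ∈ Q ∩ PP k, 6 * (1 / (p : ℝ) ^ 2) ≤ 12 := fun k => by
    rw [← mul_sum]; linarith [sum_sq_le (Q ∩ PP k) fun p hp => (hc p (q1 hp)).1.pos]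
  have s1 : ∀ d r, ∑ s ∈ range (4 * R), wt Q c (d * r * (r + s)) * wt Q c' (d * s * (r + s)) ≤
      wt Q (fun p => c p * c' p) d * wt (Q ∩ PP j) (fun p => Real.exp (2 / p)) d *
      (12 * R * Real.exp (-∑ p ∈ Q ∩ PP j, (2 - c' p - c p * c' p) / p)) *
      wt (Q ∩ PP j) (fun p => if p ∣ d then 1 else c p * Real.exp (2 / p)) r := by
    intro d r
    have b := brun2 (P := Q ∩ PP j) inter_subset_right (r := r) (H := 4 * R)
      (g := fun p => if p ∣ d ∨ p ∣ r then 1 else c' p)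
      (g' := fun p => if p ∣ d ∨ p ∣ r then 1 else c p * c' p) (fun p hp => by
        obtain ⟨-, -, a1, -, a2, a3⟩ := hc p (q1 hp)
        have := c1 p (q1 hp)
        refine ⟨?_, ?_, ?_, ?_, fun h => if_pos (Or.inr h)⟩ <;> split_ifs <;> nlinarith) (by omega)
    have w0 : 0 ≤ wt Q (fun p => c p * c' p) d * wt (Q ∩ PP j) (fun p => if p ∣ d then 1 else c p) r :=
      mul_nonneg (wt_nonneg (fun p hp => mul_nonneg (hc p hp).2.2.1 (hc p hp).2.2.2.2.1) _)
        (wt_nonneg (fun p hp => by split_ifs; exacts [zero_le_one, (hc p (q1 hp)).2.2.1]) _)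
    refine le_trans (sum_le_sum fun s _ => ?_) ((mul_sum _ _ _).ge.trans
      ((mul_le_mul_of_nonneg_left b w0).trans ?_))
    · simp only [wt, ← prod_ite_mem, ← prod_mul_distrib]
      refine prod_le_prod (fun p hp => ?_) fun p hp => ?_ <;> obtain ⟨a0, -, a1, -, a2, a3⟩ := hc p hp
      · positivity
      have := c1 p hp
      have := mul_nonneg a1 a2
      simp only [a0.dvd_mul]
      by_cases h1 : p ∣ d <;> by_cases h2 : p ∣ r <;> by_cases h3 : p ∣ s <;>
        by_cases h4 : p ∣ r + s <;> by_cases h5 : p ∈ PP j <;> simp [h1, h2, h3, h4, h5] <;>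
        first | nlinarith | exact absurd ((Nat.dvd_add_left h3).mp h4) h2
    · have e : Real.exp (-∑ p ∈ Q ∩ PP j, (2 - (if p ∣ d ∨ p ∣ r then 1 else c' p) -
          if p ∣ d ∨ p ∣ r then 1 else c p * c' p) / p) ≤
          Real.exp (-∑ p ∈ Q ∩ PP j, (2 - c' p - c p * c' p) / p) *
          wt (Q ∩ PP j) (fun p => Real.exp (2 / p)) d *
          wt (Q ∩ PP j) (fun p => Real.exp (if p ∣ d then 0 else 2 / p)) r := by
        rw [wt_exp, wt_exp, ← Real.exp_add, ← Real.exp_add, Real.exp_le_exp, ← sum_neg_distrib,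
          ← sum_neg_distrib, ← sum_add_distrib, ← sum_add_distrib]
        refine sum_le_sum fun p hp => ?_
        obtain ⟨a0, -, a1, -, a2, a3⟩ := hc p (q1 hp)
        have : (2 - c' p - c p * c' p) / p ≤ 2 / p := by gcongr; nlinarith
        have z : (2 - 1 - 1 : ℝ) / p = 0 := by norm_num
        by_cases h1 : p ∣ d <;> by_cases h2 : p ∣ r <;> simp [h1, h2] <;> linarith
      have e2 : wt (Q ∩ PP j) (fun p => if p ∣ d then 1 else c p * Real.exp (2 / p)) r =
          wt (Q ∩ PP j) (fun p => if p ∣ d then 1 else c p) r *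
          wt (Q ∩ PP j) (fun p => Real.exp (if p ∣ d then 0 else 2 / p)) r := by
        rw [wt_mul]; congr 1; ext p; split_ifs <;> simp
      rw [e2]
      refine (mul_le_mul_of_nonneg_left (mul_le_mul_of_nonneg_left e (by positivity)) w0).trans_eq ?_
      push_cast; ring
  have s2 : ∀ d, ∑ r ∈ range (2 * R),
      wt (Q ∩ PP j) (fun p => if p ∣ d then 1 else c p * Real.exp (2 / p)) r ≤
      6 * R * Real.exp (12 - ∑ p ∈ Q ∩ PP j, (1 - c p) / p) *
        wt (Q ∩ PP j) (fun p => Real.exp (1 / p)) d := by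
    intro d
    have b := brun1 (P := Q ∩ PP j) inter_subset_right (H := 2 * R)
      (g := fun p => if p ∣ d then 1 else c p * Real.exp (2 / p)) (fun p hp => by
        have := ce p (q1 hp) 2 (by norm_num)
        have := (hc p (q1 hp)).2.2.1
        split_ifs
        exacts [⟨zero_le_one, le_rfl⟩, ⟨by positivity, by assumption⟩]) (by omega) 0
    simp only [zero_add] at b
    refine b.trans ?_
    rw [wt_exp, mul_assoc (6 * (R : ℝ)), ← Real.exp_add]
    push_cast
    refine mul_le_mul (by linarith) (Real.exp_le_exp.mpr ?_) (by positivity) (by positivity)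
    have : ∑ p ∈ Q ∩ PP j, (1 - c p) / p ≤ ∑ p ∈ Q ∩ PP j,
        ((1 - if p ∣ d then 1 else c p * Real.exp (2 / p)) / p + 6 * (1 / (p : ℝ) ^ 2) +
          if p ∣ d then 1 / (p : ℝ) else 0) := sum_le_sum fun p hp => by
      obtain ⟨a0, a4, a1, -⟩ := hc p (q1 hp)
      have := absorb a4 a1 (c1 p (q1 hp)) (k := 2) (by norm_num) (by norm_num)
      have : (1 - c p) / p ≤ 1 / p := by gcongr; linarith
      have : 0 ≤ 6 * (1 / (p : ℝ) ^ 2) := by positivity
      split_ifs
      · rw [sub_self, zero_div]; linarith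
      · linarith
    rw [sum_add_distrib, sum_add_distrib] at this
    linarith [sq j]
  have s3 : ∀ d, wt Q (fun p => c p * c' p) d * wt (Q ∩ PP j) (fun p => Real.exp (2 / p)) d *
      wt (Q ∩ PP j) (fun p => Real.exp (1 / p)) d ≤
      wt (Q ∩ PP i) (fun p => c p * c' p * Real.exp (3 / p)) d := by
    intro d
    simp only [wt, ← prod_ite_mem, ← prod_mul_distrib]
    refine prod_le_prod (fun p hp => ?_) fun p hp => ?_ <;> obtain ⟨a0, -, a1, a5, a2, a3⟩ := hc p hp
    · positivity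
    have e : Real.exp (3 / p) = Real.exp (2 / p) * Real.exp (1 / p) := by
      rw [← Real.exp_add]; congr 1; ring
    have := Real.one_le_exp (show (0 : ℝ) ≤ 3 / p by positivity)
    have := mul_nonneg a1 a2
    have := c1 p hp
    by_cases h1 : p ∣ d <;> by_cases h2 : p ∈ PP i <;> by_cases h5 : p ∈ PP j <;>
      simp only [h1, h2, h5, if_true, if_false, mul_one, le_refl, mul_assoc, ← e] <;> nlinarith
  have s4 := brun1 (P := Q ∩ PP i) inter_subset_right
    (g := fun p => c p * c' p * Real.exp (3 / p)) (fun p hp => by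
      obtain ⟨-, -, a1, a5, a2, a3⟩ := hc p (q1 hp)
      exact ⟨by positivity, by nlinarith [mul_nonneg a1 (Real.exp_pos (3 / p)).le]⟩) hD 1
  have s5 : Real.exp (-∑ p ∈ Q ∩ PP i, (1 - c p * c' p * Real.exp (3 / p)) / p) ≤
      Real.exp (12 - ∑ p ∈ Q ∩ PP i, (1 - c p * c' p) / p) := by
    have := sum_le_sum fun p (hp : p ∈ Q ∩ PP i) => absorb (hc p (q1 hp)).2.1
      (mul_nonneg (hc p (q1 hp)).2.2.1 (hc p (q1 hp)).2.2.2.2.1)
      (mul_le_one₀ (c1 p (q1 hp)) (hc p (q1 hp)).2.2.2.2.1 (hc p (q1 hp)).2.2.2.2.2)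
      (k := 3) (by norm_num) le_rfl
    rw [sum_add_distrib] at this
    exact Real.exp_le_exp.mpr (by linarith [sq i])
  calc _ ≤ ∑ d ∈ range D, 12 * R * Real.exp (-∑ p ∈ Q ∩ PP j, (2 - c' p - c p * c' p) / p) *
        (6 * R * Real.exp (12 - ∑ p ∈ Q ∩ PP j, (1 - c p) / p)) *
        wt (Q ∩ PP i) (fun p => c p * c' p * Real.exp (3 / p)) (1 + d) := by
        refine sum_le_sum fun d _ => (sum_le_sum fun r _ => s1 _ r).trans ?_
        rw [← mul_sum]
        refine (mul_le_mul_of_nonneg_left (s2 _) (mul_nonneg (mul_nonneg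
          (wt_nonneg (fun p hp => mul_nonneg (hc p hp).2.2.1 (hc p hp).2.2.2.2.1) _)
          (wt_nonneg (fun _ _ => by positivity) _)) (by positivity))).trans ?_
        exact le_of_eq_of_le (by ring) (mul_le_mul_of_nonneg_left (s3 (1 + d)) (by positivity))
    _ ≤ _ := by
        rw [← mul_sum]
        refine (mul_le_mul_of_nonneg_left (s4.trans (mul_le_mul_of_nonneg_left s5 (by positivity)))
          (by positivity)).trans_eq ?_
        have : ∑ p ∈ Q ∩ PP j, (3 - c p - c' p - c p * c' p) / p =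
            ∑ p ∈ Q ∩ PP j, (2 - c' p - c p * c' p) / p + ∑ p ∈ Q ∩ PP j, (1 - c p) / p := by
          rw [← sum_add_distrib]; exact sum_congr rfl fun _ _ => by ring
        rw [this, show ∀ a b e : ℝ, 24 - a - (b + e) = -b + (12 - e) + (12 - a) from
          fun _ _ _ => by ring, Real.exp_add, Real.exp_add]
        ring

lemma mean_wt {p : ℕ} (hp : 0 < p) (c : ℝ) :
    ∑ a ∈ range p, (if p ∣ a then c else 1) = p * (1 - (1 - c) / p) := by
  have := one_class hp 0 (1 - c)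
  have p0 : (p : ℝ) ≠ 0 := by exact_mod_cast hp.ne'
  rw [sum_congr rfl (g := fun a => 1 - if p ∣ 0 + a then 1 - c else 0) fun a _ => by
    rw [zero_add]; split_ifs <;> ring, sum_sub_distrib, this]
  simp; field_simp

lemma loc {p : ℕ} (hp : p.Prime) {c : ℝ} (c0 : 0 ≤ c) (c1 : c ≤ 1) :
    0 ≤ (1 - c) / p ∧ (1 - c) / p ≤ 1 / p ∧ (1 : ℝ) / p ≤ 1 / 2 :=
  ⟨div_nonneg (by linarith) p.cast_nonneg, div_le_div_of_nonneg_right (by linarith) p.cast_nonneg,
    one_div_le_one_div_of_le two_pos (by exact_mod_cast hp.two_le)⟩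

lemma prod_up {P : Finset ℕ} {c : ℕ → ℝ} (hc : ∀ p ∈ P, p.Prime ∧ 0 ≤ c p ∧ c p ≤ 1) :
    ∏ p ∈ P, (1 - (1 - c p) / p) ≤ Real.exp (-∑ p ∈ P, (1 - c p) / p) := by
  rw [← sum_neg_distrib, Real.exp_sum]
  exact prod_le_prod (fun p hp => by linarith [loc (hc p hp).1 (hc p hp).2.1 (hc p hp).2.2])
    fun p _ => by linarith [Real.add_one_le_exp (-((1 - c p) / p))]

lemma pt {P : Finset ℕ} {c : ℕ → ℝ} (hc : ∀ p ∈ P, p.Prime ∧ 0 ≤ c p ∧ c p ≤ 1) (x H : ℕ) :
    ∑ n ∈ range H, wt P c (x + n) ≤ H * Real.exp (-∑ p ∈ P, (1 - c p) / p) + 2 * ∏ p ∈ P, (p : ℝ) ∧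
    H * Real.exp (-∑ p ∈ P, (1 - c p) / p - 4) - 2 * ∏ p ∈ P, (p : ℝ) ≤
      ∑ n ∈ range H, wt P c (x + n) := by
  have key := fun (σ : ℝ) (hσ : |σ| ≤ 1) => pm (P := P) (fun p hp => (hc p hp).1)
    (φ := fun p n => if p ∣ n then c p else 1) (fun p _ n => by simp) (fun p hp n => by
      split_ifs
      exacts [abs_le.mpr ⟨by linarith [(hc p hp).2.1], (hc p hp).2.2⟩, by simp])
    (fun p hp => mean_wt (hc p hp).1.pos (c p)) hσ x H
  have k1 := key 1 (by simp)
  have k2 := key (-1) (by simp)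
  simp only [one_mul, neg_mul, sum_neg_distrib] at k1 k2
  have H0 : (0 : ℝ) ≤ H := H.cast_nonneg
  have lo : Real.exp (-∑ p ∈ P, (1 - c p) / p - 4) ≤ ∏ p ∈ P, (1 - (1 - c p) / p) := by
    refine le_trans (b := Real.exp (∑ p ∈ P, -((1 - c p) / p + 2 * (1 / (p : ℝ) ^ 2))))
      (Real.exp_le_exp.mpr ?_) ?_
    · rw [sum_neg_distrib, sum_add_distrib, ← mul_sum]
      linarith [sum_sq_le P fun p hp => (hc p hp).1.pos]
    rw [Real.exp_sum]
    refine prod_le_prod (fun _ _ => by positivity) fun p hp => ?_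
    obtain ⟨a1, a2, a3⟩ := loc (hc p hp).1 (hc p hp).2.1 (hc p hp).2.2
    rw [← one_div_pow, Real.exp_neg, inv_le_iff_one_le_mul₀ (Real.exp_pos _)]
    generalize (1 - c p) / p = x at *
    generalize 1 / (p : ℝ) = y at *
    have := Real.add_one_le_exp (x + 2 * y ^ 2)
    nlinarith [mul_le_mul a2 a2 a1 (a1.trans a2), mul_nonneg (sq_nonneg y) (show 0 ≤ 1 / 2 - x by linarith)]
  unfold wt
  exact ⟨k1.trans (by gcongr; exact prod_up hc), by nlinarith⟩

/-- number of primes of `P` dividing `n` -/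
def om (P : Finset ℕ) (n : ℕ) : ℕ := (P.filter (· ∣ n)).card

lemma wt_const (P : Finset ℕ) (τ : ℝ) (n : ℕ) :
    wt P (fun _ => Real.exp τ) n = Real.exp (τ * om P n) := by
  rw [wt, ← prod_filter, prod_const, ← Real.exp_nat_mul, mul_comm, om]

lemma ut {P Q : Finset ℕ} {j : ℕ} {c : ℕ → ℝ} (hc : ∀ p ∈ P, p.Prime ∧ 0 ≤ c p ∧ c p ≤ 1)
    (hQ : Q ⊆ PP j) (hd : Disjoint P Q) {τ κ : ℝ} (τ0 : 0 ≤ τ) (τ1 : Real.exp τ ≤ 2)
    (hκ : κ ≤ 2 * j) (x H : ℕ) :
    ∑ n ∈ range H, wt P c (x + n) * (if κ ≤ om Q (x + n) then 1 else 0) ≤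
      H * Real.exp (-∑ p ∈ P, (1 - c p) / p - τ * κ + (Real.exp τ - 1) * ms Q) +
      6 * (∏ p ∈ P, (p : ℝ)) * (((yy j : ℝ) + 1) ^ 2) ^ (2 * j) := by
  have z0 : 0 ≤ Real.exp τ - 1 := by linarith [Real.one_le_exp τ0]
  have pq : ∀ p ∈ Q, p.Prime := fun p hp => (mem_PP.mp (hQ hp)).1
  obtain ⟨K, hK⟩ : ∃ K, K = ⌈κ⌉₊ := ⟨_, rfl⟩
  have K1 : K ≤ 2 * j := by rw [hK]; exact Nat.ceil_le.mpr (by exact_mod_cast hκ)
  have K2 : κ ≤ K := hK ▸ Nat.le_ceil κ
  have e1 : Real.exp (-(τ * K)) ≤ 1 := Real.exp_le_one_iff.mpr (neg_nonpos.mpr (by positivity))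
  calc _ ≤ ∑ n ∈ range H, ∑ S ∈ Q.powerset, if S.card ≤ 2 * j then Real.exp (-(τ * K)) *
          (wt P c (x + n) * ∏ p ∈ S, if p ∣ x + n then Real.exp τ - 1 else 0) else 0 := by
        refine sum_le_sum fun n _ => ?_
        have w0 := wt_nonneg (fun p hp => (hc p hp).2.1) (x + n)
        split_ifs with h
        swap
        · rw [mul_zero]; positivity
        obtain ⟨T, T1, T2⟩ := exists_subset_card_eq (s := Q.filter (· ∣ x + n)) (n := K)
          (by rw [hK]; exact Nat.ceil_le.mpr h)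
        refine le_trans (le_of_eq ?_) (sum_le_sum_of_subset_of_nonneg
          (powerset_mono.mpr (T1.trans (filter_subset _ _))) fun _ _ _ => by positivity)
        rw [sum_congr rfl (g := fun S => Real.exp (-(τ * K)) * (wt P c (x + n) *
          ∏ p ∈ S, (Real.exp τ - 1))) fun S hS => by
            rw [if_pos ((card_le_card (mem_powerset.mp hS)).trans (T2.le.trans K1)),
              prod_congr rfl fun p hp => if_pos (mem_filter.mp (T1 (mem_powerset.mp hS hp))).2],
          ← mul_sum, ← mul_sum, ← prod_one_add, prod_const, T2, add_sub_cancel, ← Real.exp_nat_mul,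
          mul_left_comm, ← Real.exp_add]
        simp [mul_comm]
    _ ≤ ∑ S ∈ Q.powerset, (H * Real.exp (-(τ * K)) * Real.exp (-∑ p ∈ P, (1 - c p) / p) *
          ∏ p ∈ S, (Real.exp τ - 1) * (1 / p) +
          2 * (∏ p ∈ P, (p : ℝ)) * if S.card ≤ 2 * j then ∏ p ∈ S, (p : ℝ) else 0) := by
        rw [sum_comm]
        refine sum_le_sum fun S hS => ?_
        have s := mem_powerset.mp hS
        split_ifs
        swap
        · rw [sum_const_zero]; positivity
        have d := hd.mono_right s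
        have nm : ∀ p ∈ S, p ∉ P := fun p hp => disjoint_right.mp d hp
        have := pm (P := P ∪ S) (σ := Real.exp (-(τ * K)))
          (φ := fun p n => if p ∈ P then (if p ∣ n then c p else 1) else
            (if p ∣ n then Real.exp τ - 1 else 0))
          (m := fun p => if p ∈ P then 1 - (1 - c p) / p else (Real.exp τ - 1) * (1 / p))
          (fun p hp => (mem_union.mp hp).elim (fun h => (hc p h).1) fun h => pq p (s h))
          (fun p _ n => by simp) (fun p hp n => by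
            rw [abs_le]
            split_ifs with h
            exacts [⟨by linarith [hc p h], (hc p h).2.2⟩, by norm_num, ⟨by linarith, by linarith⟩,
              by norm_num])
          (fun p hp => by
            split_ifs with h
            · exact mean_wt (hc p h).1.pos _
            · have p0 := (pq p (s ((mem_union.mp hp).resolve_left h))).pos
              have := one_class p0 0 (Real.exp τ - 1)
              have p1 : (p : ℝ) ≠ 0 := by exact_mod_cast p0.ne'
              simp only [zero_add] at this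
              rw [this]; field_simp)
          (by rwa [abs_of_pos (Real.exp_pos _)]) x H
        simp only [prod_union d] at this
        rw [prod_congr rfl fun p hp => if_pos hp, prod_congr rfl fun p hp => if_neg (nm p hp)] at this
        refine le_trans (le_of_eq (sum_congr rfl fun n _ => ?_)) (this.trans (add_le_add ?_ ?_))
        · rw [prod_congr rfl fun p hp => if_pos hp, prod_congr rfl fun p hp => if_neg (nm p hp), wt]
        · rw [mul_assoc, mul_assoc]
          gcongr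
          exact prod_up hc
        · rw [mul_assoc]
    _ ≤ _ := by
        rw [sum_add_distrib, ← mul_sum, ← mul_sum]
        refine add_le_add ?_ ((mul_le_mul_of_nonneg_left (err hQ (2 * j)) (by positivity)).trans_eq
          (by ring))
        refine (mul_le_mul_of_nonneg_left (psum fun _ _ => by positivity) (by positivity)).trans ?_
        rw [mul_assoc, mul_assoc, ← Real.exp_add, ← Real.exp_add, ← mul_sum, ← ms]
        exact mul_le_mul_of_nonneg_left (Real.exp_le_exp.mpr (by nlinarith)) H.cast_nonneg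

end Pool.Agent.H.MP_923662_nt
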