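import Pool.Agent.H.MP_923662_nt.B

set_option autoImplicit false

namespace Pool.Agent.H.MP_923662_nt
open Finset Pool.Agent.H.MP_3aed06_nt

lemma exp_neg_le {x y : ℝ} (hx : 0 ≤ x) (hy : 0 < y)
    (h : 1 ≤ y * ∑ i ∈ range 8, x ^ i / i.factorial) : Real.exp (-x) ≤ y := by
  rw [Real.exp_neg, inv_le_iff_one_le_mul₀ (Real.exp_pos _)]
  exact h.trans (mul_le_mul_of_nonneg_left (Real.sum_le_exp_of_nonneg hx 8) hy.le)

lemma nums : Real.exp (-0.2) ≤ 0.8188 ∧ 0.8187 ≤ Real.exp (-0.2) ∧ Real.exp 0.01 ≤ 1.01006 ∧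
    Real.exp (-0.01) ≤ 0.99005 ∧ Real.exp 0.22 ≤ 1.2462 ∧ Real.exp (-1.1) ≤ 1 / 3 ∧
    Real.exp (-0.78) ≤ 0.4585 ∧ Real.exp (-0.51) ≤ 0.6006 := by
  have u : ∀ x y : ℝ, 0 ≤ x → x ≤ 1 → (∑ m ∈ range 6, x ^ m / m.factorial) +
      x ^ 6 * ((6 : ℕ) + 1) / ((6 : ℕ).factorial * (6 : ℕ)) ≤ y → Real.exp x ≤ y :=
    fun x y h0 h1 h => (Real.exp_bound' h0 h1 (by norm_num)).trans h
  refine ⟨exp_neg_le ?_ ?_ ?_, ?_, u _ _ ?_ ?_ ?_, exp_neg_le ?_ ?_ ?_, u _ _ ?_ ?_ ?_,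
    exp_neg_le ?_ ?_ ?_, exp_neg_le ?_ ?_ ?_, exp_neg_le ?_ ?_ ?_⟩
  case refine_4 =>
    rw [Real.exp_neg, le_inv_comm₀ (by norm_num) (Real.exp_pos _)]
    refine u _ _ ?_ ?_ ?_ <;> norm_num [sum_range_succ, Nat.factorial]
  all_goals norm_num [sum_range_succ, Nat.factorial]

lemma geo {x : ℝ} (hx : 0 < x) (b T : ℕ) : ∑ j ∈ Ioc b T, Real.exp (-(x * (j - b))) ≤ 1 / x := by
  rcases le_total T b with h | h
  · rw [Ioc_eq_empty_of_le h, sum_empty]; positivity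
  have : ∑ j ∈ Ioc b T, Real.exp (-(x * (j - b))) ≤ (1 - Real.exp (-(x * (T - b)))) / x := by
    induction T, h using Nat.le_induction with
    | base => simp
    | succ k hk ih =>
      rw [sum_Ioc_succ_top hk, le_div_iff₀ hx] at *
      have e : Real.exp (-(x * (k - b))) = Real.exp x * Real.exp (-(x * ((k + 1 : ℕ) - b))) := by
        rw [← Real.exp_add]; congr 1; push_cast; ring
      nlinarith [Real.add_one_le_exp x, Real.exp_pos (-(x * ((k + 1 : ℕ) - b)))]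
  exact this.trans (div_le_div_of_nonneg_right (by linarith [Real.exp_pos (-(x * (T - b)))]) hx.le)

lemma ms_sdiff {i j : ℕ} : (j : ℝ) - i - 1 / 2 ≤ ms (PP j \ PP i) ∧
    (i ≤ j → ms (PP j \ PP i) ≤ j - i + 1 / 2) := by
  have h1 : ms (PP j) ≤ ms (PP j \ PP i) + ms (PP i) := by
    rw [ms, ms, ms, ← sum_union sdiff_disjoint]
    exact ms_mono (by rw [sdiff_union_self_eq_union]; exact subset_union_left)
  refine ⟨by linarith [ms_ge j, (yy_facts i).1], fun h => ?_⟩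
  have := sum_sdiff (f := fun p : ℕ => 1 / (p : ℝ)) (PP_mono h)
  have := ms_ge i
  have := (yy_facts j).1
  unfold ms at *
  linarith

lemma LL_ge (j : ℕ) : (((yy j + 1) ^ 2) ^ (2 * j)) * 2 ^ j ≤ LL j := by
  rcases Nat.eq_zero_or_pos j with rfl | h
  · simp [LL]
  rw [LL, show 20 * j = 2 * j + 18 * j by ring, pow_add]
  have := (yy_facts j).2.2
  exact Nat.mul_le_mul_left _ ((Nat.pow_le_pow_left (by nlinarith) _).trans
    (Nat.pow_le_pow_right (by positivity) (by omega)))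

lemma LL_mono : Monotone LL := fun i j h => (Nat.pow_le_pow_left (Nat.pow_le_pow_left
  (Nat.succ_le_succ (yy_mono h)) 2) _).trans (Nat.pow_le_pow_right (by positivity) (by omega))

lemma ex_lev (n : ℕ) : ∃ j ≤ n, LL j ≤ 2 ^ n ∧ 2 ^ n < LL (j + 1) := by
  classical
  refine ⟨Nat.findGreatest (fun j => LL j ≤ 2 ^ n) n, Nat.findGreatest_le n,
    Nat.findGreatest_spec (P := fun j => LL j ≤ 2 ^ n) (Nat.zero_le n) (by simp [LL, Nat.one_le_two_pow]),
    ?_⟩
  rcases (Nat.findGreatest_le (P := fun j => LL j ≤ 2 ^ n) n).lt_or_eq with h | h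
  · exact not_le.mp (Nat.findGreatest_is_greatest (P := fun j => LL j ≤ 2 ^ n) (Nat.lt_succ_self _) h)
  · rw [h]
    exact lt_of_lt_of_le (Nat.pow_lt_pow_right one_lt_two (Nat.lt_succ_self n))
      (le_trans (Nat.le_mul_of_pos_left _ (by positivity)) (LL_ge (n + 1)))

/-- not too many prime factors beyond checkpoint `b` -/
def typ (b T : ℕ) (α β : ℝ) (n : ℕ) : Prop :=
  ∀ j ∈ Ioc b T, LL j ≤ 2 ^ T → (om (PP j \ PP b) n : ℝ) ≤ α * (j - b) + β * b

open Classical in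
lemma tail {P : Finset ℕ} {b T : ℕ} {c : ℕ → ℝ} (hP : P ⊆ PP b) (hc : ∀ p ∈ P, 0 ≤ c p ∧ c p ≤ 1)
    {τ α β : ℝ} (τ0 : 0 ≤ τ) (τ1 : Real.exp τ ≤ 2) (h1 : Real.exp τ - 1 - τ * α ≤ -0.00004)
    (α2 : α ≤ 2) (β2 : β ≤ 2) (x H : ℕ) :
    ∑ n ∈ range H, wt P c (x + n) * (if typ b T α β (x + n) then 0 else 1) ≤
      H * Real.exp (-∑ p ∈ P, (1 - c p) / p) * (25000 * Real.exp (1 / 2 - τ * β * b)) +
      12 * (∏ p ∈ P, (p : ℝ)) * 2 ^ T := by
  have w0 := fun n => wt_nonneg (fun p hp => (hc p hp).1) n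
  calc _ ≤ ∑ n ∈ range H, ∑ j ∈ (Ioc b T).filter (LL · ≤ 2 ^ T), wt P c (x + n) *
          (if α * (j - b) + β * b ≤ om (PP j \ PP b) (x + n) then 1 else 0) := by
        refine sum_le_sum fun n _ => ?_
        rw [← mul_sum]
        refine mul_le_mul_of_nonneg_left ?_ (w0 _)
        split_ifs with h
        · positivity
        · unfold typ at h
          push Not at h
          obtain ⟨j, j1, j2, j3⟩ := h
          exact (if_pos j3.le).ge.trans (single_le_sum (f := fun j : ℕ => if α * (j - b) + β * b ≤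
            om (PP j \ PP b) (x + n) then (1 : ℝ) else 0) (fun _ _ => by positivity)
            (mem_filter.mpr ⟨j1, j2⟩))
    _ ≤ ∑ j ∈ Ioc b T, (H * Real.exp (-∑ p ∈ P, (1 - c p) / p) * Real.exp (1 / 2 - τ * β * b) *
          Real.exp (-(0.00004 * (j - b))) + 6 * (∏ p ∈ P, (p : ℝ)) * 2 ^ T * (1 / 2) ^ j) := by
        rw [sum_comm]
        refine le_trans (sum_le_sum fun j hj => ?_)
          (sum_le_sum_of_subset_of_nonneg (filter_subset _ _) fun _ _ _ => by positivity)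
        obtain ⟨j1, j2⟩ := mem_filter.mp hj
        have j3 := (mem_Ioc.mp j1).1.le
        have j4 : (b : ℝ) ≤ j := by exact_mod_cast j3
        have b0 : (0 : ℝ) ≤ b := b.cast_nonneg
        refine (ut (fun p hp => ⟨(mem_PP.mp (hP hp)).1, hc p hp⟩) sdiff_subset
          (disjoint_sdiff.mono_left hP) τ0 τ1 (by nlinarith) x H).trans (add_le_add ?_ ?_)
        · rw [mul_assoc, mul_assoc, ← Real.exp_add, ← Real.exp_add]
          refine mul_le_mul_of_nonneg_left (Real.exp_le_exp.mpr ?_) H.cast_nonneg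
          have := mul_le_mul_of_nonneg_left (ms_sdiff.2 j3) (sub_nonneg.mpr (Real.one_le_exp τ0))
          nlinarith
        · rw [mul_assoc _ (2 ^ T : ℝ), one_div, inv_pow, ← div_eq_mul_inv]
          refine mul_le_mul_of_nonneg_left ?_ (by positivity)
          rw [le_div_iff₀ (by positivity)]
          exact_mod_cast (LL_ge j).trans j2
    _ ≤ _ := by
        rw [sum_add_distrib, ← mul_sum, ← mul_sum]
        have a1 := geo (x := 0.00004) (by norm_num) b T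
        have a2 : ∑ j ∈ Ioc b T, (1 / 2 : ℝ) ^ j ≤ 2 :=
          (sum_le_hasSum _ (fun _ _ => by positivity) hasSum_geometric_two)
        refine add_le_add ((mul_le_mul_of_nonneg_left a1 (by positivity)).trans_eq (by ring))
          ((mul_le_mul_of_nonneg_left a2 (by positivity)).trans_eq (by ring))

lemma wt_ite {S Q : Finset ℕ} (h : S ⊆ Q) (g : ℕ → ℝ) (n : ℕ) :
    wt Q (fun p => if p ∈ S then g p else 1) n = wt S g n := by
  rw [wt, wt, ← inter_eq_right.mpr h, ← prod_ite_mem, inter_eq_right.mpr h]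
  exact prod_congr rfl fun p _ => by split_ifs <;> rfl

/-- tilting weights -/
noncomputable def ww (a p : ℕ) : ℝ := if p ≤ yy a then 0 else Real.exp (-0.2)

lemma ww_ok (a p : ℕ) : 0 ≤ ww a p ∧ ww a p ≤ Real.exp (-0.2) ∧ ww a p ≤ 1 := by
  have := nums.1
  have := Real.exp_pos (-0.2)
  unfold ww; split_ifs <;> refine ⟨?_, ?_, ?_⟩ <;> linarith

/-- logarithmic cost of the tilt -/
noncomputable def La (a b : ℕ) : ℝ := ∑ p ∈ PP b, (1 - ww a p) / p

lemma tilt {a b j : ℕ} (hj : j ≤ b) {τ : ℝ} (hτ : τ ≤ 0.2) (x H : ℕ) :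
    ∑ n ∈ range H, wt (PP b) (ww a) (x + n) * Real.exp (τ * om (PP j \ PP a) (x + n)) ≤
      H * Real.exp (-La a b + (Real.exp τ - 1) * Real.exp (-0.2) * ms (PP j \ PP a)) +
      2 * ∏ p ∈ PP b, (p : ℝ) := by
  have s : PP j \ PP a ⊆ PP b := sdiff_subset.trans (PP_mono hj)
  simp only [← wt_const, ← wt_ite s, wt_mul]
  refine (pt (fun p hp => ⟨(mem_PP.mp hp).1, ?_⟩) x H).1.trans_eq ?_
  · obtain ⟨a1, a2, a3⟩ := ww_ok a p
    refine ⟨by positivity, ?_⟩
    split_ifs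
    · refine (mul_le_mul_of_nonneg_right a2 (Real.exp_pos _).le).trans ?_
      rw [← Real.exp_add, Real.exp_le_one_iff]; linarith
    · rwa [mul_one]
  · congr 3
    rw [La, ms, mul_sum, ← inter_eq_right.mpr s, ← sum_ite_mem, inter_eq_right.mpr s,
      ← sum_neg_distrib, ← sum_neg_distrib, ← sum_add_distrib]
    refine sum_congr rfl fun p hp => ?_
    split_ifs with h
    · rw [ww, if_neg fun e => (mem_sdiff.mp h).2 (mem_PP.mpr ⟨(mem_PP.mp hp).1, e⟩)]; ring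
    · ring

lemma decomp {a b : ℕ} (ha : 0 < a) (hb : 0 < b) (hab : a ≠ b) (h : a + b ∣ a * b) :
    ∃ d r s, 0 < r ∧ 0 < s ∧ r ≠ s ∧ a = (1 + d) * r * (r + s) ∧ b = (1 + d) * s * (r + s) := by
  obtain ⟨g, r, s, g0, hc, rfl, rfl⟩ := Nat.exists_coprime' (Nat.gcd_pos_of_pos_left b ha)
  have r0 := Nat.pos_of_mul_pos_right ha
  have s0 := Nat.pos_of_mul_pos_right hb
  rw [← add_mul, show r * g * (s * g) = r * s * g * g by ring, Nat.mul_dvd_mul_iff_right g0] at h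
  obtain ⟨d, rfl⟩ := Nat.Coprime.dvd_of_dvd_mul_left (Nat.Coprime.mul_right
    (by simpa using hc.symm) (by simpa using hc)) h
  obtain ⟨e, rfl⟩ : ∃ e, d = 1 + e := ⟨d - 1, by have := Nat.pos_of_mul_pos_left g0; omega⟩
  exact ⟨e, r, s, r0, s0, fun e => hab (by rw [e]), by ring, by ring⟩

end Pool.Agent.H.MP_923662_nt
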