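import Pool.Agent.H.MP_923662_nt.C

set_option autoImplicit false

namespace Pool.Agent.H.MP_923662_nt
open Finset Pool.Agent.H.MP_3aed06_nt

/-- primes used at level `j` -/
noncomputable def QQ (b j : ℕ) : Finset ℕ := (PP (max j b)).erase 2

/-- weights for the even end -/
noncomputable def cc (a b j p : ℕ) : ℝ := (if p ∈ (PP b).erase 2 then ww a p else 1) *
  (if p ∈ PP (min j b) \ PP a then Real.exp (-1.1) else 1) *
  (if p ∈ PP j \ PP b then Real.exp (-0.78) else 1)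

/-- weights for the other end -/
noncomputable def cd (b j p : ℕ) : ℝ := if p ∈ PP j \ PP b then Real.exp (-0.51) else 1

/-- threshold exponent -/
noncomputable def th (b j : ℕ) : ℝ := if j ≤ b then 0.913 * j else 0.9718 * b + 1.3743 * (j - b)

lemma mem_QQ {b j p : ℕ} : p ∈ QQ b j ↔ p ≠ 2 ∧ (p ∈ PP j ∨ p ∈ PP b) := by
  simp only [QQ, mem_erase, mem_PP, yy_mono.map_max, le_max_iff, and_or_left]

lemma mem_min {b j p : ℕ} : p ∈ PP (min j b) ↔ p ∈ PP j ∧ p ∈ PP b := by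
  simp only [mem_PP, yy_mono.map_min, le_min_iff]; tauto

lemma two_mem {a : ℕ} (ha : 2 ≤ a) : 2 ∈ PP a :=
  mem_PP.mpr ⟨Nat.prime_two, ha.trans (yy_facts a).2.2⟩

lemma cc_ok {a b : ℕ} (ha : 15 ≤ a) (hab : a ≤ b) (j : ℕ) : ∀ p ∈ QQ b j, p.Prime ∧ 3 ≤ p ∧
    0 ≤ cc a b j p ∧ cc a b j p * Real.exp (3 / p) ≤ 1 ∧ 0 ≤ cd b j p ∧ cd b j p ≤ 1 := by
  intro p hp
  obtain ⟨p2, hq⟩ := mem_QQ.mp hp
  have pp : p.Prime := hq.elim (fun h => (mem_PP.mp h).1) fun h => (mem_PP.mp h).1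
  obtain ⟨w1, w2, w3⟩ := ww_ok a p
  obtain ⟨n1, n2, -, -, -, n3, n4, n5⟩ := nums
  refine ⟨pp, by have := pp.two_le; omega, by unfold cc; positivity, ?_, by unfold cd; positivity,
    by unfold cd; split_ifs <;> linarith⟩
  by_cases h : p ≤ yy a
  · rw [cc, if_pos (mem_erase.mpr ⟨p2, mem_PP.mpr ⟨pp, h.trans (yy_mono hab)⟩⟩), ww, if_pos h]
    simp
  have p15 : (15 : ℝ) ≤ p := by exact_mod_cast (ha.trans (yy_facts a).2.2).trans (not_le.mp h).le
  have e1 : cc a b j p ≤ Real.exp (-0.2) := by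
    have := Real.exp_pos (-1.1)
    by_cases hb : p ∈ PP b
    · simp only [cc, mem_erase, mem_sdiff, hb, p2, ne_eq, not_false_eq_true, and_self, if_true,
        not_true, and_false, if_false, mul_one]
      split_ifs <;> nlinarith
    · simp only [cc, mem_erase, mem_sdiff, mem_min, hb, hq.resolve_right hb, and_false, false_and,
        if_false, not_false_eq_true, and_self, if_true, one_mul]
      linarith
  refine (mul_le_mul_of_nonneg_right e1 (Real.exp_pos _).le).trans ?_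
  rw [← Real.exp_add, Real.exp_le_one_iff]
  have : 3 / (p : ℝ) ≤ 0.2 := by rw [div_le_iff₀ (by linarith)]; linarith
  linarith

lemma point {a b j m y : ℕ} (ha : 15 ≤ a) (hab : a ≤ b)
    (g1 : (om (PP (min j b) \ PP a) m : ℝ) ≤ 0.83 * (min j b : ℕ))
    (g2 : b < j → (om (PP j \ PP b) m : ℝ) ≤ 1.01 * (j - b) + 0.01 * b ∧
      (om (PP j \ PP b) y : ℝ) ≤ 1.15 * (j - b) + 0.1 * b) :
    wt (PP b) (ww a) m ≤
      Real.exp (th b j) * (wt (QQ b j) (cc a b j) (2 * m) * wt (QQ b j) (cd b j) y) := by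
  have s1 : (PP b).erase 2 ⊆ QQ b j := erase_subset_erase _ (PP_mono (le_max_right _ _))
  have s2 : PP (min j b) \ PP a ⊆ QQ b j := fun p hp => mem_QQ.mpr ⟨fun e => (mem_sdiff.mp hp).2
    (e ▸ two_mem (by omega)), Or.inl (mem_min.mp (mem_sdiff.mp hp).1).1⟩
  have s3 : PP j \ PP b ⊆ QQ b j := fun p hp => mem_QQ.mpr ⟨fun e => (mem_sdiff.mp hp).2
    (e ▸ two_mem (by omega)), Or.inl (mem_sdiff.mp hp).1⟩
  have e1 : wt (QQ b j) (cc a b j) (2 * m) = wt (QQ b j) (cc a b j) m :=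
    prod_congr rfl fun p hp => by
      obtain ⟨h1, h2, -⟩ := cc_ok ha hab j p hp
      simp only [h1.dvd_mul, Nat.not_dvd_of_pos_of_lt two_pos h2, false_or]
  have e2 : wt (PP b) (ww a) m ≤ wt ((PP b).erase 2) (ww a) m := by
    rw [wt, ← mul_prod_erase _ _ (two_mem (show 2 ≤ b by omega))]
    refine mul_le_of_le_one_left (wt_nonneg (fun p _ => (ww_ok a p).1) m) ?_
    split_ifs; exacts [(ww_ok a 2).2.2, le_rfl]
  rw [e1]
  unfold cc cd
  rw [← wt_mul, ← wt_mul, wt_ite s1, wt_ite s2, wt_ite s3, wt_ite s3, wt_const, wt_const, wt_const,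
    mul_assoc, mul_assoc, mul_left_comm, ← Real.exp_add, ← Real.exp_add, ← Real.exp_add]
  refine e2.trans (le_mul_of_one_le_right (wt_nonneg (fun p _ => (ww_ok a p).1) m)
    (Real.one_le_exp ?_))
  unfold th
  split_ifs with h
  · rw [sdiff_eq_empty_iff_subset.mpr (PP_mono h)]
    rw [min_eq_left h] at g1 ⊢
    simp only [om, filter_empty, card_empty, Nat.cast_zero] at g1 ⊢
    linarith
  · obtain ⟨g2, g3⟩ := g2 (not_le.mp h)
    rw [min_eq_right (not_le.mp h).le] at g1 ⊢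
    linarith

lemma uv : Real.exp (-0.78) * Real.exp (-0.51) ≤ 0.2754 :=
  (mul_le_mul nums.2.2.2.2.2.2.1 nums.2.2.2.2.2.2.2 (Real.exp_pos _).le (by norm_num)).trans
    (by norm_num)

lemma expoAB {a b : ℕ} (ha : 15 ≤ a) (hab : a ≤ b) (j : ℕ) :
    th b j + (24 - ∑ p ∈ QQ b j ∩ PP (max j b), (1 - cc a b j p * cd b j p) / p -
      ∑ p ∈ QQ b j ∩ PP j, (3 - cc a b j p - cd b j p - cc a b j p * cd b j p) / p) ≤
      27 - La a b + -(1.01 * j) := by
  have s1 : (PP b).erase 2 ⊆ QQ b j := erase_subset_erase _ (PP_mono (le_max_right _ _))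
  have s2 : (PP (min j b)).erase 2 ⊆ QQ b j := erase_subset_erase _ (PP_mono min_le_max)
  have s3 : PP j \ PP b ⊆ QQ b j := fun p hp => mem_QQ.mpr ⟨fun e => (mem_sdiff.mp hp).2
    (e ▸ two_mem (by omega)), Or.inl (mem_sdiff.mp hp).1⟩
  have k : ∑ p ∈ QQ b j ∩ (PP b).erase 2, (1 - ww a p) / p +
      ∑ p ∈ QQ b j ∩ (PP (min j b)).erase 2, 2 / (p : ℝ) + ∑ p ∈ QQ b j ∩ (PP j \ PP b), 2.39 / (p : ℝ) ≤
      ∑ p ∈ QQ b j ∩ PP (max j b), (1 - cc a b j p * cd b j p) / p +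
      ∑ p ∈ QQ b j ∩ PP j, (3 - cc a b j p - cd b j p - cc a b j p * cd b j p) / p := by
    simp only [← sum_ite_mem, ← sum_add_distrib]
    refine sum_le_sum fun p hp => ?_
    obtain ⟨p2, hq⟩ := mem_QQ.mp hp
    obtain ⟨w1, w2, w3⟩ := ww_ok a p
    obtain ⟨n1, n2, -, -, -, n3, n4, n5⟩ := nums
    have := uv
    have w4 : p ∈ PP a → ww a p = 0 := fun h => if_pos (mem_PP.mp h).2
    rw [if_pos (mem_of_mem_erase hp)]
    by_cases h1 : p ∈ PP j <;> by_cases h2 : p ∈ PP b <;> by_cases h3 : p ∈ PP a <;>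
      simp only [cc, cd, mem_erase, mem_sdiff, mem_min, h1, h2, h3, p2, ne_eq, not_false_eq_true,
        and_self, if_true, not_true, and_false, false_and, if_false, mul_one, one_mul, add_zero,
        zero_add, ← add_div, or_self, and_true, le_refl] at hq ⊢ <;>
      refine div_le_div_of_nonneg_right ?_ p.cast_nonneg <;>
      first | nlinarith | (rw [w4 h3]; norm_num)
  rw [inter_eq_right.mpr s1, inter_eq_right.mpr s2, inter_eq_right.mpr s3] at k
  have k1 : La a b - 1 / 2 ≤ ∑ p ∈ (PP b).erase 2, (1 - ww a p) / p := by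
    rw [La, ← add_sum_erase _ _ (two_mem (show 2 ≤ b by omega))]
    have := (ww_ok a 2).1
    push_cast; linarith
  have k2 : 2 * ((min j b : ℕ) - 1 / 2 : ℝ) ≤ ∑ p ∈ (PP (min j b)).erase 2, 2 / (p : ℝ) := by
    have := ms_ge (min j b)
    have e : ∑ p ∈ (PP (min j b)).erase 2, 2 / (p : ℝ) = 2 * ms ((PP (min j b)).erase 2) := by
      rw [ms, mul_sum]; exact sum_congr rfl fun _ _ => by ring
    have := ms_mono (subset_insert_iff.mpr (Subset.refl ((PP (min j b)).erase 2)))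
    rw [ms, ms, sum_insert (notMem_erase _ _), ← ms, ← ms] at this
    push_cast at *
    linarith
  have k3 : ∑ p ∈ PP j \ PP b, 2.39 / (p : ℝ) = 2.39 * ms (PP j \ PP b) := by
    rw [ms, mul_sum]; exact sum_congr rfl fun _ _ => by ring
  have k4 := (ms_sdiff (i := b) (j := j)).1
  have k5 : 0 ≤ ms (PP j \ PP b) := sum_nonneg fun _ _ => by positivity
  have b0 : (0 : ℝ) ≤ b := b.cast_nonneg
  have j0 : (0 : ℝ) ≤ j := j.cast_nonneg
  unfold th
  split_ifs with h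
  · rw [min_eq_left h] at k k2; linarith
  · have : (b : ℝ) ≤ j := by exact_mod_cast (not_le.mp h).le
    rw [min_eq_right (not_le.mp h).le] at k k2; linarith

lemma expoC {a b i j J : ℕ} (ha : 15 ≤ a) (hab : a ≤ b) (hij : i ≤ j) (hbj : b < j) (hJ : J ≤ j) :
    th b j + (24 - ∑ p ∈ QQ b j ∩ PP i, (1 - cc a b j p * cd b j p) / p -
      ∑ p ∈ QQ b j ∩ PP j, (3 - cc a b j p - cd b j p - cc a b j p * cd b j p) / p) ≤
      26 + 2 * b - 0.005 * J + -(1.01 * i) := by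
  have k : ∀ l ≤ j, ∀ (g : ℕ → ℝ) (x : ℝ), (∀ p ∈ QQ b j, 0 ≤ g p) → (∀ p ∈ PP j \ PP b, x ≤ g p) →
      0 ≤ x → x * (l - b - 1 / 2) ≤ ∑ p ∈ QQ b j ∩ PP l, g p / p := by
    intro l hl g x h1 h2 hx
    refine (mul_le_mul_of_nonneg_left ms_sdiff.1 hx).trans ?_
    rw [ms, mul_sum]
    refine le_trans (sum_le_sum (g := fun p => g p / p) fun p hp => ?_)
      (sum_le_sum_of_subset_of_nonneg (fun p hp => ?_) fun p hp _ =>
        div_nonneg (h1 p (mem_inter.mp hp).1) p.cast_nonneg) <;> obtain ⟨p1, p2⟩ := mem_sdiff.mp hp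
    · rw [mul_one_div]
      exact div_le_div_of_nonneg_right (h2 p (mem_sdiff.mpr ⟨PP_mono hl p1, p2⟩)) p.cast_nonneg
    · exact mem_inter.mpr ⟨mem_QQ.mpr ⟨fun e => p2 (e ▸ two_mem (by omega)),
        Or.inl (PP_mono hl p1)⟩, p1⟩
  have c1 : ∀ p ∈ QQ b j, 0 ≤ cc a b j p ∧ cc a b j p ≤ 1 ∧ 0 ≤ cd b j p ∧ cd b j p ≤ 1 := fun p hp => by
    obtain ⟨-, -, a1, a2, a3⟩ := cc_ok ha hab j p hp
    exact ⟨a1, (le_mul_of_one_le_right a1 (Real.one_le_exp (by positivity))).trans a2, a3⟩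
  have c2 : ∀ p ∈ PP j \ PP b, cc a b j p = Real.exp (-0.78) ∧ cd b j p = Real.exp (-0.51) :=
    fun p hp => by simp [cc, cd, hp, mem_min, (mem_sdiff.mp hp).2]
  obtain ⟨-, -, -, -, -, -, n4, n5⟩ := nums
  have := uv
  have k1 := k i hij (fun p => 1 - cc a b j p * cd b j p) 0.7246
    (fun p hp => by have := c1 p hp; nlinarith) (fun p hp => by rw [(c2 p hp).1, (c2 p hp).2]; linarith)
    (by norm_num)
  have k2 := k j le_rfl (fun p => 3 - cc a b j p - cd b j p - cc a b j p * cd b j p) 1.6655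
    (fun p hp => by have := c1 p hp; nlinarith) (fun p hp => by rw [(c2 p hp).1, (c2 p hp).2]; linarith)
    (by norm_num)
  have : (i : ℝ) ≤ j := by exact_mod_cast hij
  have : (J : ℝ) ≤ j := by exact_mod_cast hJ
  have : (0 : ℝ) ≤ b := b.cast_nonneg
  have : (0 : ℝ) ≤ i := i.cast_nonneg
  rw [th, if_neg (not_le.mpr hbj)]
  linarith

lemma lev {a b T n j J : ℕ} (ha : 15 ≤ a) (hab : a ≤ b) {f : ℕ → ℝ} (f0 : ∀ n, 0 ≤ f n)
    (hf : ∀ n j : ℕ, 2 ^ n < LL (j + 1) → Real.exp (-(1.01 * j)) ≤ f n)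
    (j1 : LL j ≤ 2 ^ n) (j2 : 2 ^ n < LL (j + 1)) (hn : n ≤ T) (T1 : LL (b + 1) + LL b ≤ T)
    (T2 : 2 * LL J ≤ T) :
    Real.exp (th b j) * ∑ d ∈ range (4 ^ (T - n)), ∑ r ∈ range (2 * 2 ^ n), ∑ s ∈ range (4 * 2 ^ n),
      wt (QQ b j) (cc a b j) ((1 + d) * r * (r + s)) * wt (QQ b j) (cd b j) ((1 + d) * s * (r + s)) ≤
    216 * 4 ^ T * (Real.exp (27 - La a b) * f n + Real.exp (26 + 2 * b - 0.005 * J) * f (T - n)) := by
  have e : (((4 ^ (T - n) : ℕ) : ℝ)) * ((2 ^ n : ℕ) : ℝ) ^ 2 = 4 ^ T := by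
    push_cast
    rw [← pow_mul, mul_comm n, pow_mul, show (2 : ℝ) ^ 2 = 4 by norm_num, ← pow_add,
      Nat.sub_add_cancel hn]
  have := f0 n
  have := f0 (T - n)
  have l1 : ∀ k, k < 2 ^ k := fun k => Nat.lt_two_pow_self
  have l2 : 2 ^ (T - n) ≤ 4 ^ (T - n) := Nat.pow_le_pow_left (by norm_num) _
  by_cases h : LL (max j b) ≤ 4 ^ (T - n)
  · refine (mul_le_mul_of_nonneg_left (edge (cc_ok ha hab j) j1 h) (Real.exp_pos _).le).trans ?_
    rw [e, mul_left_comm, ← Real.exp_add]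
    refine mul_le_mul_of_nonneg_left ((Real.exp_le_exp.mpr (expoAB ha hab j)).trans ?_) (by positivity)
    rw [Real.exp_add]
    exact (mul_le_mul_of_nonneg_left (hf n j j2) (Real.exp_pos _).le).trans
      (le_add_of_nonneg_right (by positivity))
  · have hb : b < j := by
      by_contra hb
      have := LL_mono (show j + 1 ≤ b + 1 by omega)
      have := l1 n
      have := l1 (T - n)
      rw [max_eq_right (by omega)] at h
      omega
    rw [max_eq_left hb.le] at h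
    obtain ⟨i, -, i1, i2⟩ := ex_lev (T - n)
    have ij : i ≤ j := by
      by_contra hc
      have := LL_mono (show j ≤ i by omega)
      omega
    have hJ : J ≤ j := by
      by_contra hc
      have := LL_mono (show j + 1 ≤ J by omega)
      have h4 : 2 ^ (2 * (T - n)) < 2 ^ n := by rw [pow_mul, show 2 ^ 2 = 4 from rfl]; omega
      have := (Nat.pow_lt_pow_iff_right one_lt_two).mp h4
      have := l1 n
      omega
    refine (mul_le_mul_of_nonneg_left (edge (cc_ok ha hab j) j1 (i1.trans l2))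
      (Real.exp_pos _).le).trans ?_
    rw [e, mul_left_comm, ← Real.exp_add]
    refine mul_le_mul_of_nonneg_left ((Real.exp_le_exp.mpr (expoC ha hab ij hb hJ)).trans ?_)
      (by positivity)
    rw [Real.exp_add]
    exact (mul_le_mul_of_nonneg_left (hf _ i i2) (Real.exp_pos _).le).trans
      (le_add_of_nonneg_left (by positivity))

end Pool.Agent.H.MP_923662_nt
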