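import Pool.Agent.H.MP_923662_nt.D

set_option autoImplicit false

namespace Pool.Agent.H.MP_923662_nt
open Finset Pool.Agent.H.MP_3aed06_nt Filter

/-- good halves of even elements -/
def gd (a b T m : ℕ) : Prop :=
  (∀ j ∈ Ioc a b, (om (PP j \ PP a) m : ℝ) ≤ 0.83 * j) ∧ 0.81 * (b : ℝ) ≤ om (PP b \ PP a) m ∧
    typ b T 1.01 0.01 m

/-- has a typical neighbour -/
def nb (b T m : ℕ) : Prop :=
  ∃ y, 0 < y ∧ y ≤ 4 ^ T ∧ 2 * m ≠ y ∧ typ b T 1.15 0.1 y ∧ 2 * m + y ∣ 2 * m * y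

lemma edges {a b T J n1 : ℕ} (ha : 15 ≤ a) (hab : a ≤ b) (h1 : 6 * 2 ^ n1 ≤ a) {f : ℕ → ℝ}
    (fs : Summable f) (f0 : ∀ n, 0 ≤ f n)
    (hf : ∀ n j : ℕ, 2 ^ n < LL (j + 1) → Real.exp (-(1.01 * j)) ≤ f n)
    (T1 : LL (b + 1) + LL b ≤ T) (T2 : 2 * LL J ≤ T) {S : Finset ℕ}
    (hS : ∀ m ∈ S, 4 ^ T < 4 * m ∧ 2 * m ≤ 4 ^ T ∧ gd a b T m ∧ nb b T m ∧ wt (PP b) (ww a) m ≠ 0) :
    ∑ m ∈ S, wt (PP b) (ww a) m ≤ 216 * 4 ^ T * (Real.exp (27 - La a b) * ∑ n ∈ Icc n1 T, f n +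
      Real.exp (26 + 2 * b - 0.005 * J) * ∑' n, f n) := by
  choose lv l1 l2 l3 using ex_lev
  obtain ⟨φ, hφ⟩ : ∃ φ : (Σ _ : ℕ, ℕ × ℕ × ℕ) → ℝ, ∀ n d r s, φ ⟨n, d, r, s⟩ = Real.exp (th b (lv n)) *
      (wt (QQ b (lv n)) (cc a b (lv n)) ((1 + d) * r * (r + s)) *
      wt (QQ b (lv n)) (cd b (lv n)) ((1 + d) * s * (r + s))) :=
    ⟨fun q => Real.exp (th b (lv q.1)) * (wt (QQ b (lv q.1)) (cc a b (lv q.1))
      ((1 + q.2.1) * q.2.2.1 * (q.2.2.1 + q.2.2.2)) * wt (QQ b (lv q.1)) (cd b (lv q.1))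
      ((1 + q.2.1) * q.2.2.2 * (q.2.2.1 + q.2.2.2))), fun _ _ _ _ => rfl⟩
  have key : ∀ m ∈ S, ∃ q : (Σ _ : ℕ, ℕ × ℕ × ℕ), q ∈ (Icc n1 T).sigma (fun n => range (4 ^ (T - n)) ×ˢ
      range (2 * 2 ^ n) ×ˢ range (4 * 2 ^ n)) ∧
      2 * m = (1 + q.2.1) * q.2.2.1 * (q.2.2.1 + q.2.2.2) ∧ wt (PP b) (ww a) m ≤ φ q := by
    intro m hm
    obtain ⟨m1, m2, ⟨g1, -, g3⟩, ⟨y, y0, y1, y2, y3, y4⟩, w⟩ := hS m hm
    obtain ⟨d, r, s, r0, s0, rs, e1, e2⟩ := decomp (by omega) y0 y2 y4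
    obtain ⟨n, n2, n3⟩ : ∃ n, 2 ^ n ≤ r ∧ r < 2 * 2 ^ n :=
      ⟨Nat.log 2 r, Nat.pow_log_le_self 2 r0.ne', pow_succ' 2 _ ▸ Nat.lt_pow_succ_log_self one_lt_two r⟩
    have s2 : s < 2 * r := by
      have : (1 + d) * (r + s) * s < (1 + d) * (r + s) * (2 * r) := by nlinarith
      exact lt_of_mul_lt_mul_left this (Nat.zero_le _)
    have d1 : (1 + d) * 4 ^ n ≤ 4 ^ T := by
      rw [show 4 = 2 * 2 from rfl, mul_pow, ← mul_assoc]
      exact (Nat.mul_le_mul (Nat.mul_le_mul_left _ n2) (by omega)).trans (e1 ▸ m2)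
    have nT : n ≤ T := (Nat.pow_le_pow_iff_right (by norm_num)).mp
      (le_trans (Nat.le_mul_of_pos_left _ (by omega)) d1)
    have d2 : d < 4 ^ (T - n) := by
      rw [← Nat.sub_add_cancel nT, pow_add] at d1
      have := Nat.le_of_mul_le_mul_right d1 (by positivity)
      omega
    have t1 : yy a < r + s := by
      by_contra hc
      have : (r + s).Coprime m := Nat.coprime_of_dvd fun p pp p1 p2 => w (prod_eq_zero
        (mem_PP.mpr ⟨pp, ((Nat.le_of_dvd (by omega) p1).trans (not_lt.mp hc)).trans (yy_mono hab)⟩)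
        (by rw [if_pos p2, ww, if_pos ((Nat.le_of_dvd (by omega) p1).trans (not_lt.mp hc))]))
      have := Nat.le_of_dvd two_pos (this.dvd_of_dvd_mul_right (e1 ▸ dvd_mul_left _ _))
      omega
    have n4 : n1 ≤ n := by
      have := (yy_facts a).2.2
      exact ((Nat.pow_lt_pow_iff_right one_lt_two).mp (by omega)).le
    refine ⟨⟨n, d, r, s⟩, by simp only [mem_sigma, mem_Icc, mem_product, mem_range]; omega, e1, ?_⟩
    rw [hφ, ← e1, ← e2]
    have hj : b < lv n → lv n ∈ Ioc b T := fun h => mem_Ioc.mpr ⟨h, (l1 n).trans nT⟩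
    have hL := (l2 n).trans (Nat.pow_le_pow_right two_pos nT)
    refine point ha hab ?_ fun h => ⟨g3 _ (hj h) hL, y3 _ (hj h) hL⟩
    rcases le_or_gt (min (lv n) b) a with h | h
    · rw [sdiff_eq_empty_iff_subset.mpr (PP_mono h), om, filter_empty, card_empty, Nat.cast_zero]
      positivity
    · exact g1 _ (mem_Ioc.mpr ⟨h, min_le_right _ _⟩)
  choose! i i1 i2 i3 using key
  refine (sum_le_sum i3).trans ((inj_sum S _ i i1 (fun m hm m' hm' e => ?_) _ φ ?_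
    fun _ _ => rfl).trans ?_)
  · have := i2 m hm
    rw [e, ← i2 m' hm'] at this
    omega
  · rintro ⟨n, d, r, s⟩
    rw [hφ]
    exact mul_nonneg (Real.exp_pos _).le (mul_nonneg
      (wt_nonneg (fun p hp => (cc_ok ha hab _ p hp).2.2.1) _)
      (wt_nonneg (fun p hp => (cc_ok ha hab _ p hp).2.2.2.2.1) _))
  rw [sum_sigma]
  simp only [sum_product, hφ, ← mul_sum]
  refine (sum_le_sum fun n hn => lev ha hab f0 hf (l2 n) (l3 n) (mem_Icc.mp hn).2 T1 T2).trans ?_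
  rw [← mul_sum, sum_add_distrib, ← mul_sum, ← mul_sum]
  gcongr
  refine (sum_le_sum_of_subset_of_nonneg (t := range (T + 1))
    (fun n hn => mem_range.mpr (Nat.lt_succ_of_le (mem_Icc.mp hn).2)) fun _ _ _ => f0 _).trans ?_
  exact (sum_range_reflect f (T + 1)).le.trans (fs.sum_le_tsum _ fun _ _ => f0 _)

open Classical in
lemma mass (a b T x H : ℕ) :
    H * Real.exp (-La a b) * (Real.exp (-4) - 25000 * Real.exp 0.01 * Real.exp (-(0.0083 * a)) -
      Real.exp (0.01 * (a + 1)) * Real.exp (-(0.00004 * b)) -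
      25000 * Real.exp (1 / 2) * Real.exp (-(0.0001 * b))) -
      (∏ p ∈ PP b, (p : ℝ)) * (14 + 2 * b + 2 * Real.exp (0.0081 * b)) * 2 ^ T ≤
    ∑ n ∈ range H, if gd a b T (x + n) then wt (PP b) (ww a) (x + n) else 0 := by
  obtain ⟨n1, n2, n3, n4, -⟩ := nums
  have w0 := fun n => wt_nonneg (P := PP b) (fun p _ => (ww_ok a p).1) n
  have k : ∀ m, wt (PP b) (ww a) m ≤ (if gd a b T m then wt (PP b) (ww a) m else 0) +
      ∑ j ∈ Ioc a b, wt (PP b) (ww a) m * Real.exp (0.01 * om (PP j \ PP a) m) *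
        Real.exp (-(0.0083 * j)) +
      wt (PP b) (ww a) m * Real.exp (-0.01 * om (PP b \ PP a) m) * Real.exp (0.0081 * b) +
      wt (PP b) (ww a) m * (if typ b T 1.01 0.01 m then 0 else 1) := by
    intro m
    have := w0 m
    have p1 : ∀ j : ℕ, 0 ≤ wt (PP b) (ww a) m * Real.exp (0.01 * om (PP j \ PP a) m) *
      Real.exp (-(0.0083 * j)) := fun j => by positivity
    have p2 := sum_nonneg fun j (_ : j ∈ Ioc a b) => p1 j
    have p3 : 0 ≤ wt (PP b) (ww a) m * Real.exp (-0.01 * om (PP b \ PP a) m) *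
      Real.exp (0.0081 * b) := by positivity
    have p4 : 0 ≤ wt (PP b) (ww a) m * (if typ b T 1.01 0.01 m then 0 else 1) := by positivity
    split_ifs with h1 h2 h3
    · linarith
    · linarith
    · by_cases h4 : 0.81 * (b : ℝ) ≤ om (PP b \ PP a) m
      · obtain ⟨j, j1, j2⟩ : ∃ j ∈ Ioc a b, 0.83 * (j : ℝ) < om (PP j \ PP a) m := by
          by_contra hc
          push Not at hc
          exact h1 ⟨hc, h4, h3⟩
        have := single_le_sum (fun j _ => p1 j) j1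
        rw [mul_assoc, ← Real.exp_add] at this
        nlinarith [Real.one_le_exp (show 0 ≤ 0.01 * (om (PP j \ PP a) m : ℝ) + -(0.0083 * j) by linarith)]
      · rw [mul_assoc, ← Real.exp_add]
        nlinarith [Real.one_le_exp (show 0 ≤ -0.01 * (om (PP b \ PP a) m : ℝ) + 0.0081 * b by linarith)]
    · linarith
  have k0 := (pt (P := PP b) (c := ww a) (fun p hp => ⟨(mem_PP.mp hp).1, (ww_ok a p).1,
    (ww_ok a p).2.2⟩) x H).2.trans (sum_le_sum fun n _ => k (x + n))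
  rw [sum_add_distrib, sum_add_distrib, sum_add_distrib, sum_comm, ← sum_mul] at k0
  have k3 := tail (b := b) (T := T) (Subset.refl _) (fun p _ => ⟨(ww_ok a p).1, (ww_ok a p).2.2⟩)
    (τ := 0.01) (α := 1.01) (β := 0.01) (by norm_num) (by linarith) (by linarith) (by norm_num)
    (by norm_num) x H
  obtain ⟨M, hM⟩ : ∃ M, M = ∏ p ∈ PP b, (p : ℝ) := ⟨_, rfl⟩
  have M0 : 0 ≤ M := hM ▸ prod_nonneg fun p _ => p.cast_nonneg
  have k2 : (∑ n ∈ range H, wt (PP b) (ww a) (x + n) * Real.exp (-0.01 * om (PP b \ PP a) (x + n))) *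
      Real.exp (0.0081 * b) ≤ H * Real.exp (-La a b) * (Real.exp (0.01 * (a + 1)) *
      Real.exp (-(0.00004 * b))) + 2 * M * Real.exp (0.0081 * b) := by
    refine (mul_le_mul_of_nonneg_right (tilt le_rfl (by norm_num) x H) (Real.exp_pos _).le).trans ?_
    rw [add_mul, hM, mul_assoc, mul_assoc (H : ℝ), ← Real.exp_add, ← Real.exp_add, ← Real.exp_add]
    refine add_le_add (mul_le_mul_of_nonneg_left (Real.exp_le_exp.mpr ?_) H.cast_nonneg) le_rfl
    have := (ms_sdiff (i := a) (j := b)).1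
    have m0 : 0 ≤ ms (PP b \ PP a) := sum_nonneg fun _ _ => by positivity
    have : (Real.exp (-0.01) - 1) * Real.exp (-0.2) ≤ -0.008146 := by nlinarith
    nlinarith [mul_le_mul_of_nonneg_right this m0, (a.cast_nonneg : (0 : ℝ) ≤ a),
      (b.cast_nonneg : (0 : ℝ) ≤ b)]
  have k1 : ∑ j ∈ Ioc a b, ∑ n ∈ range H, wt (PP b) (ww a) (x + n) *
      Real.exp (0.01 * om (PP j \ PP a) (x + n)) * Real.exp (-(0.0083 * j)) ≤
      H * Real.exp (-La a b) * (25000 * Real.exp 0.01 * Real.exp (-(0.0083 * a))) + 2 * M * b := by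
    refine (sum_le_sum (g := fun j : ℕ => H * Real.exp (-La a b) * (Real.exp 0.01 *
      Real.exp (-(0.0083 * a))) * Real.exp (-(0.00004 * (j - a))) + 2 * M) fun j hj => ?_).trans ?_
    · obtain ⟨j1, j2⟩ := mem_Ioc.mp hj
      have j3 : (a : ℝ) ≤ j := by exact_mod_cast j1.le
      rw [← sum_mul]
      refine (mul_le_mul_of_nonneg_right (tilt j2 (by norm_num) x H) (Real.exp_pos _).le).trans ?_
      rw [add_mul, ← hM, mul_assoc, mul_assoc (H : ℝ), mul_assoc (H : ℝ), ← Real.exp_add,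
        ← Real.exp_add, ← Real.exp_add, ← Real.exp_add]
      refine add_le_add (mul_le_mul_of_nonneg_left (Real.exp_le_exp.mpr ?_) H.cast_nonneg)
        (mul_le_of_le_one_right (by positivity) (Real.exp_le_one_iff.mpr (neg_nonpos.mpr (by positivity))))
      have := ms_sdiff.2 j1.le
      have m0 : 0 ≤ ms (PP j \ PP a) := sum_nonneg fun _ _ => by positivity
      have : (Real.exp 0.01 - 1) * Real.exp (-0.2) ≤ 0.00824 := by nlinarith [Real.exp_pos (-0.2)]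
      nlinarith [mul_le_mul_of_nonneg_right this m0]
    · rw [sum_add_distrib, ← mul_sum, sum_const, nsmul_eq_mul, Nat.card_Ioc, mul_comm _ (2 * M)]
      refine add_le_add ((mul_le_mul_of_nonneg_left (geo (by norm_num) a b)
        (by positivity)).trans_eq (by ring)) ?_
      gcongr
      exact Nat.sub_le _ _
  rw [← La, ← hM, sub_eq_add_neg (-La a b), Real.exp_add] at k0
  rw [← La, ← hM, sub_eq_add_neg, Real.exp_add, show 0.01 * 0.01 * (b : ℝ) = 0.0001 * b by ring] at k3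
  rw [← hM]
  have t1 : (1 : ℝ) ≤ 2 ^ T := one_le_pow₀ one_le_two
  nlinarith [mul_le_mul_of_nonneg_left t1 (show 0 ≤ M * (2 + 2 * b + 2 * Real.exp (0.0081 * b)) by
    positivity)]

lemma wt_up {a b T m : ℕ} (h : gd a b T m) : wt (PP b) (ww a) m ≤ Real.exp (-(0.162 * b)) := by
  refine le_trans ?_ ((wt_const (PP b \ PP a) (-0.2) m).le.trans
    (Real.exp_le_exp.mpr (by linarith [h.2.1])))
  rw [← wt_ite (Q := PP b) sdiff_subset]
  obtain ⟨w1, w2, w3⟩ : (∀ p, 0 ≤ ww a p) ∧ (∀ p, ww a p ≤ Real.exp (-0.2)) ∧ ∀ p, ww a p ≤ 1 :=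
    ⟨fun p => (ww_ok a p).1, fun p => (ww_ok a p).2.1, fun p => (ww_ok a p).2.2⟩
  refine prod_le_prod (fun p _ => ?_) fun p _ => ?_ <;> beta_reduce <;> split_ifs
  exacts [w1 p, zero_le_one, w2 p, w3 p, le_rfl]

lemma La_le {a b : ℕ} (hab : a ≤ b) : La a b ≤ 0.1813 * b + a + 1 := by
  have : La a b ≤ 0.1813 * ms (PP b) + ms (PP a) := by
    rw [La, ms, ms, mul_sum, ← inter_eq_right.mpr (PP_mono hab), ← sum_ite_mem, ← sum_add_distrib]
    refine sum_le_sum fun p hp => ?_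
    split_ifs with h
    · have := (ww_ok a p).1
      rw [mul_one_div, ← add_div]
      exact div_le_div_of_nonneg_right (by linarith) p.cast_nonneg
    · rw [ww, if_neg fun e => h (mem_PP.mpr ⟨(mem_PP.mp hp).1, e⟩), mul_one_div, add_zero]
      exact div_le_div_of_nonneg_right (by linarith [nums.2.1]) p.cast_nonneg
  linarith [(yy_facts a).1, (yy_facts b).1]

lemma big {c δ : ℝ} (hc : 0 < c) (hδ : 0 < δ) (K : ℝ) :
    ∀ᶠ n : ℕ in atTop, K * Real.exp (-(c * n)) ≤ δ := by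
  have := (Real.tendsto_exp_neg_atTop_nhds_zero.comp
    (tendsto_natCast_atTop_atTop.const_mul_atTop hc)).const_mul K
  rw [mul_zero] at this
  exact this.eventually_le_const hδ

open Classical in
lemma build {b T : ℕ} (hb : 2 ≤ b) (hT : 0 < T) {E : Finset ℕ}
    (hE : ∀ m ∈ E, 0 < m ∧ 2 * m ≤ 4 ^ T ∧ typ b T 1.01 0.01 m ∧ ¬nb b T m) :
    ∃ A : Finset ℕ, A ⊆ Icc 1 (4 ^ T) ∧ (∀ a ∈ A, ∀ b ∈ A, a ≠ b → ¬ (a + b ∣ a * b)) ∧
      (4 : ℝ) ^ T / 2 - (4 ^ T * (25000 * Real.exp (1 / 2 - 0.022 * b)) + 12 * 2 ^ T) + E.card ≤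
        A.card := by
  obtain ⟨O, hO⟩ : ∃ O, O = (Icc 1 (4 ^ T)).filter fun y => y % 2 = 1 ∧ typ b T 1.15 0.1 y := ⟨_, rfl⟩
  have k : ∀ y ∈ O ∪ E.image (2 * ·), y ∈ Icc 1 (4 ^ T) ∧ typ b T 1.15 0.1 y ∧
      (y % 2 = 1 ∨ ∃ m, 2 * m = y ∧ ¬nb b T m) := by
    intro y hy
    rcases mem_union.mp hy with h | h
    · obtain ⟨h1, h2, h3⟩ := mem_filter.mp (hO ▸ h)
      exact ⟨h1, h3, Or.inl h2⟩
    · obtain ⟨m, hm, rfl⟩ := mem_image.mp h
      obtain ⟨h1, h2, h3, h4⟩ := hE m hm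
      refine ⟨mem_Icc.mpr ⟨by omega, h2⟩, fun j hj hL => ?_, Or.inr ⟨m, rfl, h4⟩⟩
      have : om (PP j \ PP b) (2 * m) = om (PP j \ PP b) m := by
        refine congrArg card (filter_congr fun p hp => ?_)
        obtain ⟨p1, p2⟩ := mem_sdiff.mp hp
        have pp := (mem_PP.mp p1).1
        rw [pp.dvd_mul, Nat.prime_dvd_prime_iff_eq pp Nat.prime_two]
        exact or_iff_right fun e => p2 (e ▸ two_mem hb)
      have j1 : (b : ℝ) ≤ j := by exact_mod_cast (mem_Ioc.mp hj).1.le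
      have := h3 j hj hL
      have : (0 : ℝ) ≤ b := b.cast_nonneg
      rw [‹om _ _ = _›]
      linarith
  refine ⟨O ∪ E.image (2 * ·), fun y hy => (k y hy).1, fun u hu v hv huv hd => ?_, ?_⟩
  · obtain ⟨u1, u2, u3⟩ := k u hu
    obtain ⟨v1, v2, v3⟩ := k v hv
    rw [mem_Icc] at u1 v1
    rcases u3 with u3 | ⟨m, rfl, u3⟩
    · rcases v3 with v3 | ⟨m, rfl, v3⟩
      · have := (show 2 ∣ u + v by omega).trans hd
        rw [Nat.prime_two.dvd_mul] at this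
        omega
      · exact v3 ⟨u, u1.1, u1.2, huv.symm, u2, by rwa [add_comm, mul_comm (2 * m)]⟩
    · exact u3 ⟨v, v1.1, v1.2, huv, v2, hd⟩
  rw [card_union_of_disjoint (disjoint_left.mpr fun y h1 h2 => by
    obtain ⟨m, -, rfl⟩ := mem_image.mp h2
    have := (mem_filter.mp (hO ▸ h1)).2.1
    omega), card_image_of_injective _ fun x y h => by simpa using h]
  have t := tail (b := b) (T := T) (c := fun _ => 1) (empty_subset _) (by simp) (τ := 0.22) (α := 1.15)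
    (β := 0.1) (by norm_num) (by linarith [nums.2.2.2.2.1]) (by linarith [nums.2.2.2.2.1])
    (by norm_num) (by norm_num) 1 (4 ^ T)
  obtain ⟨T, rfl⟩ : ∃ k, T = k + 1 := ⟨T - 1, by omega⟩
  have c : (range (2 * 4 ^ T)).card ≤ (O ∪ ((range (4 ^ (T + 1))).filter
      fun n => ¬typ b (T + 1) 1.15 0.1 (1 + n)).image (1 + ·)).card := by
    refine card_le_card_of_injOn (fun i => 2 * i + 1) (fun i hi => ?_) fun x _ y _ h => by simpa using h
    have := mem_range.mp hi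
    rw [hO]
    simp only [coe_union, coe_image, coe_filter, Set.mem_union, Set.mem_ofPred_eq, Set.mem_image,
      mem_Icc, mem_range, pow_succ]
    by_cases h : typ b (T + 1) 1.15 0.1 (2 * i + 1)
    · exact Or.inl ⟨by omega, by omega, h⟩
    · exact Or.inr ⟨2 * i, ⟨by omega, by rwa [add_comm 1]⟩, add_comm _ _⟩
  have c2 := (Nat.cast_le (α := ℝ)).mpr ((card_range _ ▸ c).trans ((card_union_le _ _).trans
    (Nat.add_le_add_left card_image_le _)))
  simp only [wt, prod_empty, sum_empty, neg_zero, Real.exp_zero, one_mul, mul_one,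
    show 0.22 * 0.1 * (b : ℝ) = 0.022 * b by ring] at t
  rw [card_filter] at c2
  push_cast at c2 t ⊢
  simp only [ite_not] at c2
  have : (4 : ℝ) ^ (T + 1) = 4 ^ T * 4 := pow_succ _ _
  linarith

lemma arith {η G K N S X F Z z z' e c t u1 u2 u3 u4 R1 R2 C : ℝ} (N0 : 0 < N) (X0 : 0 < X) (z0 : 0 < z)
    (u : z' * z = 1) (t0 : 0 ≤ t) (q : N * 4 = t * t) (a1 : u1 ≤ η) (b1 : u2 ≤ η) (b2 : u3 ≤ η)
    (hJ : 216 * e * Z * z * c ≤ 0.025 * G) (T0 : K * z + 12 ≤ t * (0.025 * G))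
    (e1 : R1 ≤ 216 * (N * 4) * (F * X * S + e * c * Z))
    (e2 : N * X * (10 * η - u1 - u2 - u3) - K * t ≤ R1 + R2) (e4 : R2 ≤ C * z')
    (e6 : S * (864 * F) < η) (e7 : G * z' ≤ 10 * η * X) (e8 : u4 ≤ 0.05 * G) :
    (1 / 2 + 0.05 * G) * (N * 4) ≤ N * 4 / 2 - (N * 4 * u4 + 12 * t) + C := by
  have X1 := (mul_pos N0 X0).le
  have e9 : 0.6 * N * G * z' - K * t - 216 * (N * 4) * (e * c * Z) ≤ C * z' := by
    linarith [mul_le_mul_of_nonneg_left a1 X1, mul_le_mul_of_nonneg_left b1 X1,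
      mul_le_mul_of_nonneg_left b2 X1, mul_le_mul_of_nonneg_left e6.le X1,
      mul_le_mul_of_nonneg_left e7 N0.le]
  have e10 := mul_le_mul_of_nonneg_right e9 z0.le
  rw [mul_assoc C, sub_mul, sub_mul, mul_assoc _ z', u] at e10
  have e11 := mul_le_mul_of_nonneg_right T0 t0
  rw [mul_right_comm t, ← q] at e11
  linarith [mul_le_mul_of_nonneg_left hJ N0.le, mul_le_mul_of_nonneg_left e8 N0.le]

open Classical in
theorem main : ∃ ε : ℝ, ε > 0 ∧ ∀ M : ℕ, ∃ N : ℕ, M ≤ N ∧ ∃ A : Finset ℕ, A ⊆ Finset.Icc 1 N ∧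
    (∀ a ∈ A, ∀ b ∈ A, a ≠ b → ¬ (a + b ∣ a * b)) ∧ ((1 : ℝ) / 2 + ε) * (N : ℝ) ≤ (A.card : ℝ) := by
  obtain ⟨f, fs, f0, hf⟩ := decay
  obtain ⟨η, hη⟩ : ∃ η, η = Real.exp (-4) / 10 := ⟨_, rfl⟩
  have η0 : 0 < η := by rw [hη]; positivity
  obtain ⟨s, hs⟩ := fs.vanishing (Iio_mem_nhds (show 0 < η / (864 * Real.exp 27) by positivity))
  obtain ⟨a, a1, a2, a3⟩ := ((big (c := 0.0083) (by norm_num) η0 (25000 * Real.exp 0.01)).and
    ((eventually_ge_atTop 15).and (eventually_ge_atTop (6 * 2 ^ (s.sup id + 1))))).exists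
  obtain ⟨b, b1, b2, b3, b4⟩ := ((big (c := 0.00004) (by norm_num) η0 (Real.exp (0.01 * (a + 1)))).and
    ((big (c := 0.0001) (by norm_num) η0 (25000 * Real.exp (1 / 2))).and ((big (c := 0.0027)
    (by norm_num) (show 0 < 0.05 * Real.exp (-5 - a) by positivity) (25000 * Real.exp (1 / 2))).and
    (eventually_ge_atTop a)))).exists
  obtain ⟨G, hG⟩ : ∃ G, G = Real.exp (-5 - a - 0.0193 * b) := ⟨_, rfl⟩
  have G0 : 0 < G := hG ▸ Real.exp_pos _
  obtain ⟨J, hJ⟩ := (big (c := 0.005) (by norm_num) (show 0 < 0.025 * G by positivity)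
    (216 * Real.exp (26 + 2 * b) * (∑' n, f n) * Real.exp (0.162 * b))).exists
  refine ⟨0.05 * G, by positivity, fun M => ?_⟩
  obtain ⟨K, hK⟩ : ∃ K, K = (∏ p ∈ PP b, (p : ℝ)) * (14 + 2 * b + 2 * Real.exp (0.0081 * b)) := ⟨_, rfl⟩
  obtain ⟨T, T0, T1, T2, T3⟩ := (((tendsto_pow_atTop_atTop_of_one_lt (one_lt_two (α := ℝ))).eventually_ge_atTop
    ((K * Real.exp (0.162 * b) + 12) / (0.025 * G))).and ((eventually_ge_atTop (M + 1)).and
    ((eventually_ge_atTop (LL (b + 1) + LL b)).and (eventually_ge_atTop (2 * LL J))))).exists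
  obtain ⟨T, rfl⟩ : ∃ k, T = k + 1 := ⟨T - 1, by omega⟩
  obtain ⟨R, hR⟩ : ∃ R, R = ((range (4 ^ T)).image (4 ^ T + 1 + ·)).filter fun m =>
    gd a b (T + 1) m ∧ wt (PP b) (ww a) m ≠ 0 := ⟨_, rfl⟩
  have r : ∀ m ∈ R, 4 ^ (T + 1) < 4 * m ∧ 2 * m ≤ 4 ^ (T + 1) ∧ gd a b (T + 1) m ∧
      wt (PP b) (ww a) m ≠ 0 := fun m hm => by
    obtain ⟨h1, h2⟩ := mem_filter.mp (hR ▸ hm)
    obtain ⟨n, hn, rfl⟩ := mem_image.mp h1
    have := mem_range.mp hn
    exact ⟨by omega, by omega, h2⟩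
  obtain ⟨A, A1, A2, A3⟩ := build (E := R.filter fun m => ¬nb b (T + 1) m) (show 2 ≤ b by omega)
    T.succ_pos fun m hm => by
      obtain ⟨h1, h2⟩ := mem_filter.mp hm
      obtain ⟨r1, r2, r3, -⟩ := r m h1
      exact ⟨by omega, r2, r3.2.2, h2⟩
  refine ⟨4 ^ (T + 1), by have := Nat.lt_pow_self (n := T + 1) (show 1 < 4 by norm_num); omega,
    A, A1, A2, le_trans ?_ A3⟩
  have e1 := edges a2 b4 a3 fs f0 hf T2 T3 (S := R.filter (nb b (T + 1))) fun m hm => by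
    obtain ⟨h1, h2⟩ := mem_filter.mp hm
    obtain ⟨r1, r2, r3, r4⟩ := r m h1
    exact ⟨r1, r2, r3, h2, r4⟩
  have e2 := mass a b (T + 1) (4 ^ T + 1) (4 ^ T)
  have e3 : ∑ n ∈ range (4 ^ T), (if gd a b (T + 1) (4 ^ T + 1 + n) then
      wt (PP b) (ww a) (4 ^ T + 1 + n) else 0) = ∑ m ∈ R, wt (PP b) (ww a) m := by
    rw [hR, sum_filter, sum_image fun x _ y _ h => by simpa using h]
    exact sum_congr rfl fun n _ => by split_ifs <;> simp_all
  have e4 := sum_le_card_nsmul (R.filter fun m => ¬nb b (T + 1) m) _ _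
    fun m hm => wt_up (r m (mem_filter.mp hm).1).2.2.1
  have e6 : ∑ n ∈ Icc (s.sup id + 1) (T + 1), f n < η / (864 * Real.exp 27) :=
    hs _ (disjoint_left.mpr fun n h1 h2 => by
      have := (mem_Icc.mp h1).1
      have : n ≤ s.sup id := le_sup (f := id) h2
      omega)
  have e7 : G * Real.exp (-(0.162 * b)) ≤ 10 * η * Real.exp (-La a b) := by
    rw [hG, hη, mul_div_cancel₀ _ (by norm_num), ← Real.exp_add, ← Real.exp_add, Real.exp_le_exp]
    linarith [La_le b4]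
  have e8 : 25000 * Real.exp (1 / 2 - 0.022 * b) ≤ 0.05 * G := by
    have := mul_le_mul_of_nonneg_right b3 (Real.exp_pos (-(0.0193 * b))).le
    rw [mul_assoc, mul_assoc, mul_assoc, ← Real.exp_add, ← Real.exp_add, ← Real.exp_add] at this
    rw [hG]
    exact (this.trans_eq' (by congr 2; ring)).trans_eq (by congr 2)
  rw [e3, ← hK, show Real.exp (-4) = 10 * η by rw [hη]; ring] at e2
  rw [lt_div_iff₀ (by positivity)] at e6
  rw [div_le_iff₀ (by positivity)] at T0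
  rw [sub_eq_add_neg 27, sub_eq_add_neg (26 + 2 * b : ℝ), Real.exp_add, Real.exp_add _ (-_)] at e1
  rw [nsmul_eq_mul] at e4
  rw [← sum_filter_add_sum_filter_not R (nb b (T + 1))] at e2
  push_cast at e2 ⊢
  rw [pow_succ (4 : ℝ)] at e1 ⊢
  exact arith (by positivity) (Real.exp_pos _) (Real.exp_pos _) (by rw [← Real.exp_add]; simp)
    (by positivity) (by rw [← mul_pow, ← pow_succ]; norm_num) a1 b1 b2 hJ T0 e1 e2 e4 e6 e7 e8

end Pool.Agent.H.MP_923662_nt
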